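import Mathlib

set_option autoImplicit false
set_option linter.unusedSectionVars false

open Finset

namespace Pool.Agent.Lib_helper99.Burnside

section chain

open scoped Classical

variable {X S : Type*} [Fintype X] [Fintype S] (R : S → X → Prop)

/-- number of group elements fixing `x` -/
noncomputable def sz (x : X) : ℝ := ((univ.filter fun σ => R σ x).card : ℝ)
/-- number of points fixed by `σ` -/
noncomputable def fx (σ : S) : ℝ := ((univ.filter fun x => R σ x).card : ℝ)

/-- the two step kernel -/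
noncomputable def ker (x y : X) : ℝ := ∑ σ, if R σ x ∧ R σ y then 1 / (sz R x * fx R σ) else 0

/-- the kernel avoiding `e` -/
noncomputable def kerT (e : S) (x y : X) : ℝ :=
  ∑ σ, if σ ≠ e ∧ R σ x ∧ R σ y then 1 / (sz R x * fx R σ) else 0

/-- expectation of `w` at a random group element fixing `x` -/
noncomputable def wb (w : S → ℝ) (x : X) : ℝ := (∑ σ, if R σ x then w σ else 0) / sz R x

variable {R}

lemma sz_pos {e : S} (he : ∀ x, R e x) (x : X) : 1 ≤ sz R x := by
  unfold sz
  have : 0 < (univ.filter fun σ => R σ x).card := Finset.card_pos.2 ⟨e, by simp [he x]⟩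
  exact_mod_cast this

lemma fx_nonneg (σ : S) : 0 ≤ fx R σ := Nat.cast_nonneg _

lemma fx_pos {σ : S} {x : X} (h : R σ x) : 0 < fx R σ := by
  unfold fx
  have : 0 < (univ.filter fun x => R σ x).card := Finset.card_pos.2 ⟨x, by simp [h]⟩
  exact_mod_cast this

lemma sum_R_const (x : X) (c : ℝ) : (∑ σ : S, if R σ x then c else 0) = sz R x * c := by
  rw [← Finset.sum_filter, Finset.sum_const, nsmul_eq_mul]; rfl

lemma sum_R_const' (σ : S) (c : ℝ) : (∑ x : X, if R σ x then c else 0) = fx R σ * c := by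
  rw [← Finset.sum_filter, Finset.sum_const, nsmul_eq_mul]; rfl

lemma ker_eq (e : S) (he : ∀ x, R e x) (x y : X) :
    ker R x y = kerT R e x y + 1 / (sz R x * fx R e) := by
  unfold ker kerT
  have h1 : ∀ σ : S, (if R σ x ∧ R σ y then 1 / (sz R x * fx R σ) else 0) =
      (if σ ≠ e ∧ R σ x ∧ R σ y then 1 / (sz R x * fx R σ) else 0) +
        (if σ = e then 1 / (sz R x * fx R e) else 0) := by
    intro σ
    by_cases h : σ = e
    · subst h; simp [he]
    · simp [h]
  rw [Finset.sum_congr rfl fun σ _ => h1 σ, Finset.sum_add_distrib]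
  simp

lemma kerT_nonneg (e : S) (he : ∀ x, R e x) (x y : X) : 0 ≤ kerT R e x y := by
  refine Finset.sum_nonneg fun σ _ => ?_
  split_ifs
  · have := sz_pos he x
    have := fx_nonneg (R := R) σ
    positivity
  · exact le_refl _

/-- the measure `sz` is invariant -/
lemma sum_sz_ker (e : S) (he : ∀ x, R e x) (y : X) : ∑ x, sz R x * ker R x y = sz R y := by
  unfold ker
  have h1 : ∀ x, sz R x * (∑ σ, if R σ x ∧ R σ y then 1 / (sz R x * fx R σ) else 0) =
      ∑ σ, if R σ y then (if R σ x then 1 / fx R σ else 0) else 0 := by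
    intro x
    rw [Finset.mul_sum]
    refine Finset.sum_congr rfl fun σ _ => ?_
    have hx := sz_pos he x
    have hx' : sz R x ≠ 0 := by linarith
    by_cases h1 : R σ x <;> by_cases h2 : R σ y <;> simp [h1, h2]
    rw [← mul_assoc, mul_comm (sz R x)]
    field_simp
  rw [Finset.sum_congr rfl fun x _ => h1 x, Finset.sum_comm]
  have h2 : ∀ σ : S, (∑ x : X, if R σ y then (if R σ x then 1 / fx R σ else 0) else 0) =
      if R σ y then 1 else 0 := by
    intro σ
    by_cases h : R σ y
    · simp only [h, if_true]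
      rw [sum_R_const']
      have := fx_pos h
      field_simp
    · simp [h]
  rw [Finset.sum_congr rfl fun σ _ => h2 σ, sum_R_const, mul_one]

/-- row sums against a function -/
lemma sum_kerT (e : S) (x : X) (F : X → ℝ) :
    ∑ y, kerT R e x y * F y =
      ∑ σ, if σ ≠ e ∧ R σ x then (∑ y, if R σ y then F y else 0) / (sz R x * fx R σ) else 0 := by
  unfold kerT
  simp only [Finset.sum_mul]
  rw [Finset.sum_comm]
  refine Finset.sum_congr rfl fun σ _ => ?_
  by_cases h : σ ≠ e ∧ R σ x
  · rw [if_pos h, Finset.sum_div]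
    refine Finset.sum_congr rfl fun y _ => ?_
    by_cases h2 : R σ y
    · rw [if_pos ⟨h.1, h.2, h2⟩, if_pos h2]; ring
    · rw [if_neg fun h' => h2 h'.2.2, if_neg h2]; ring
  · rw [if_neg h]
    refine Finset.sum_eq_zero fun y _ => ?_
    rw [if_neg fun h' => h ⟨h'.1, h'.2.1⟩, zero_mul]

lemma sum_ne_R (e : S) (he : ∀ x, R e x) (x : X) (w : S → ℝ) :
    (∑ σ, if σ ≠ e ∧ R σ x then w σ else 0) = (∑ σ, if R σ x then w σ else 0) - w e := by
  have h1 : ∀ σ : S, (if σ ≠ e ∧ R σ x then w σ else 0) =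
      (if R σ x then w σ else 0) - (if σ = e then w e else 0) := by
    intro σ
    by_cases h : σ = e
    · subst h; simp [he]
    · simp [h]
  rw [Finset.sum_congr rfl fun σ _ => h1 σ, Finset.sum_sub_distrib]
  simp

lemma sum_kerT_one (e : S) (he : ∀ x, R e x) (x : X) :
    ∑ y, kerT R e x y = 1 - 1 / sz R x := by
  have h := sum_kerT (R := R) e x (fun _ => 1)
  simp only [mul_one] at h
  rw [h]
  have hx := sz_pos he x
  have hx' : sz R x ≠ 0 := by linarith
  have h2 : ∀ σ : S, (if σ ≠ e ∧ R σ x then (∑ y, if R σ y then (1 : ℝ) else 0) /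
      (sz R x * fx R σ) else 0) = if σ ≠ e ∧ R σ x then 1 / sz R x else 0 := by
    intro σ
    by_cases h : σ ≠ e ∧ R σ x
    · rw [if_pos h, if_pos h, sum_R_const', mul_one]
      have := fx_pos h.2
      field_simp
    · rw [if_neg h, if_neg h]
  rw [Finset.sum_congr rfl fun σ _ => h2 σ, sum_ne_R e he x (fun _ => 1 / sz R x), sum_R_const]
  field_simp

lemma sum_ker_one (e : S) (he : ∀ x, R e x) (x : X) : ∑ y, ker R x y = 1 := by
  simp only [ker_eq e he, Finset.sum_add_distrib]
  rw [sum_kerT_one e he]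
  have hx := sz_pos he x
  have hx' : sz R x ≠ 0 := by linarith
  have hf : fx R e = Fintype.card X := by
    unfold fx; congr 1
    rw [Finset.filter_true_of_mem fun x _ => he x]; rfl
  have hX : (Fintype.card X : ℝ) ≠ 0 := by
    have : 0 < Fintype.card X := Fintype.card_pos_iff.2 ⟨x⟩
    positivity
  rw [Finset.sum_const, hf, Finset.card_univ, nsmul_eq_mul]
  field_simp
  ring

/-- the defective measures -/
noncomputable def aT (R : S → X → Prop) (e : S) (μ0 : X → ℝ) : ℕ → X → ℝ
  | 0 => μ0
  | t + 1 => fun y => ∑ x, aT R e μ0 t x * kerT R e x y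

lemma aT_nonneg (e : S) (he : ∀ x, R e x) (μ0 : X → ℝ) (h0 : ∀ x, 0 ≤ μ0 x) (t : ℕ) (x : X) :
    0 ≤ aT R e μ0 t x := by
  induction t generalizing x with
  | zero => exact h0 x
  | succ t ih => exact Finset.sum_nonneg fun y _ => mul_nonneg (ih y) (kerT_nonneg e he y x)

lemma aT_mass (e : S) (he : ∀ x, R e x) (μ0 : X → ℝ) (t : ℕ) :
    ∑ x, aT R e μ0 (t + 1) x = ∑ x, aT R e μ0 t x - ∑ x, aT R e μ0 t x / sz R x := by
  simp only [aT]
  rw [Finset.sum_comm]
  simp only [← Finset.mul_sum]
  rw [← Finset.sum_sub_distrib]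
  refine Finset.sum_congr rfl fun x _ => ?_
  rw [sum_kerT_one e he]
  ring

lemma aT_mass_le (e : S) (he : ∀ x, R e x) (μ0 : X → ℝ) (h0 : ∀ x, 0 ≤ μ0 x) (t : ℕ) :
    ∑ x, aT R e μ0 (t + 1) x ≤ ∑ x, aT R e μ0 t x := by
  rw [aT_mass e he]
  have : 0 ≤ ∑ x, aT R e μ0 t x / sz R x := Finset.sum_nonneg fun x _ => by
    have := sz_pos he x
    have := aT_nonneg e he μ0 h0 t x
    positivity
  linarith

/-- pointwise domination -/
lemma mu_le (e : S) (he : ∀ x, R e x) (μ : ℕ → X → ℝ) (h0 : ∀ x, 0 ≤ μ 0 x)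
    (h1 : ∑ x, μ 0 x = 1) (hrec : ∀ t y, μ (t + 1) y = ∑ x, μ t x * ker R x y) (t : ℕ) (y : X) :
    μ t y ≤ aT R e (μ 0) t y + (1 - ∑ x, aT R e (μ 0) t x) * (sz R y / fx R e) := by
  induction t generalizing y with
  | zero => simp [aT, h1]
  | succ t ih =>
    rw [hrec]
    have hker : ∀ x, 0 ≤ ker R x y := by
      intro x
      rw [ker_eq e he]
      have := kerT_nonneg e he x y
      have := sz_pos he x
      have := fx_nonneg (R := R) e
      positivity
    have hfe : 0 < fx R e := fx_pos (he y)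
    calc ∑ x, μ t x * ker R x y
        ≤ ∑ x, (aT R e (μ 0) t x + (1 - ∑ x, aT R e (μ 0) t x) * (sz R x / fx R e)) *
            ker R x y := Finset.sum_le_sum fun x _ => mul_le_mul_of_nonneg_right (ih x) (hker x)
      _ = (∑ x, aT R e (μ 0) t x * kerT R e x y) + (∑ x, aT R e (μ 0) t x / sz R x) / fx R e +
            (1 - ∑ x, aT R e (μ 0) t x) * (sz R y / fx R e) := by
          have e1 : ∀ x, (aT R e (μ 0) t x + (1 - ∑ x, aT R e (μ 0) t x) * (sz R x / fx R e)) *
            ker R x y = aT R e (μ 0) t x * kerT R e x y + aT R e (μ 0) t x / sz R x / fx R e +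
              (1 - ∑ x, aT R e (μ 0) t x) / fx R e * (sz R x * ker R x y) := by
            intro x
            have hx := sz_pos he x
            have hx' : sz R x ≠ 0 := by linarith
            rw [add_mul]
            nth_rewrite 1 [ker_eq e he]
            field_simp
          rw [Finset.sum_congr rfl fun x _ => e1 x, Finset.sum_add_distrib,
            Finset.sum_add_distrib, ← Finset.mul_sum, sum_sz_ker e he, ← Finset.sum_div]
          ring
      _ ≤ _ := by
          have e2 : (∑ x, aT R e (μ 0) t x / sz R x) / fx R e ≤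
              (∑ x, aT R e (μ 0) t x / sz R x) * (sz R y / fx R e) := by
            have h2 : 0 ≤ ∑ x, aT R e (μ 0) t x / sz R x := Finset.sum_nonneg fun x _ => by
              have := sz_pos he x
              have := aT_nonneg e he (μ 0) h0 t x
              positivity
            rw [div_eq_mul_inv, div_eq_mul_inv]
            have h3 := sz_pos he y
            have h4 : (fx R e)⁻¹ ≤ sz R y * (fx R e)⁻¹ := by
              have : 0 < (fx R e)⁻¹ := by positivity
              nlinarith
            exact mul_le_mul_of_nonneg_left h4 h2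
          rw [aT_mass e he]
          have e3 : aT R e (μ 0) (t + 1) y = ∑ x, aT R e (μ 0) t x * kerT R e x y := rfl
          rw [e3]
          nlinarith

/-- Lyapunov bound for the defective mass -/
lemma mass_bound (e : S) (he : ∀ x, R e x) (w : S → ℝ) (hwe : w e = 0) {B : ℝ}
    (hw0 : ∀ σ, 0 ≤ w σ) (hwB : ∀ σ, w σ ≤ B)
    (hdrift : ∀ σ, σ ≠ e → (∑ x, if R σ x then wb R w x else 0) ≤ fx R σ * (w σ - 1))
    (μ0 : X → ℝ) (h0 : ∀ x, 0 ≤ μ0 x) (h1 : ∑ x, μ0 x = 1) (t : ℕ) :
    t * ∑ x, aT R e μ0 t x ≤ B := by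
  have hstep : ∀ t, ∑ x, aT R e μ0 (t + 1) x * wb R w x ≤
      ∑ x, aT R e μ0 t x * wb R w x - ∑ x, aT R e μ0 (t + 1) x := by
    intro t
    have e1 : ∑ x, aT R e μ0 (t + 1) x * wb R w x =
        ∑ x, aT R e μ0 t x * ∑ y, kerT R e x y * wb R w y := by
      simp only [aT, Finset.sum_mul, Finset.mul_sum]
      rw [Finset.sum_comm]
      refine Finset.sum_congr rfl fun x _ => Finset.sum_congr rfl fun y _ => by ring
    rw [e1, aT_mass e he, ← Finset.sum_sub_distrib, ← Finset.sum_sub_distrib]
    refine Finset.sum_le_sum fun x _ => ?_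
    have ha := aT_nonneg e he μ0 h0 t x
    have hx := sz_pos he x
    have hx' : sz R x ≠ 0 := by linarith
    rw [sum_kerT]
    have e2 : (∑ σ, if σ ≠ e ∧ R σ x then (∑ y, if R σ y then wb R w y else 0) /
        (sz R x * fx R σ) else 0) ≤ ∑ σ, if σ ≠ e ∧ R σ x then (w σ - 1) / sz R x else 0 := by
      refine Finset.sum_le_sum fun σ _ => ?_
      by_cases h : σ ≠ e ∧ R σ x
      · rw [if_pos h, if_pos h]
        have hf := fx_pos h.2
        rw [div_le_div_iff₀ (by positivity) (by linarith)]
        have := hdrift σ h.1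
        nlinarith
      · rw [if_neg h, if_neg h]
    have e3 : (∑ σ, if σ ≠ e ∧ R σ x then (w σ - 1) / sz R x else 0) =
        wb R w x - (1 - 1 / sz R x) := by
      rw [sum_ne_R e he x (fun σ => (w σ - 1) / sz R x)]
      have e4 : (∑ σ : S, if R σ x then (w σ - 1) / sz R x else 0) =
          (∑ σ : S, if R σ x then w σ else 0) / sz R x - (∑ σ : S, if R σ x then (1 : ℝ) else 0) / sz R x := by
        rw [Finset.sum_div, Finset.sum_div, ← Finset.sum_sub_distrib]
        refine Finset.sum_congr rfl fun σ _ => ?_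
        split_ifs <;> ring
      rw [e4, sum_R_const, hwe]
      unfold wb
      field_simp
      ring
    have e5 := mul_le_mul_of_nonneg_left (e2.trans e3.le) ha
    calc _ ≤ _ := e5
      _ = _ := by ring
  have hwb0 : ∀ x, 0 ≤ wb R w x := by
    intro x
    unfold wb
    have hx := sz_pos he x
    have : 0 ≤ ∑ σ, if R σ x then w σ else 0 := Finset.sum_nonneg fun σ _ => by
      split_ifs
      · exact hw0 σ
      · exact le_refl _
    positivity
  have hwbB : ∀ x, wb R w x ≤ B := by
    intro x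
    unfold wb
    have hx := sz_pos he x
    rw [div_le_iff₀ (by linarith), mul_comm, ← sum_R_const]
    refine Finset.sum_le_sum fun σ _ => ?_
    split_ifs
    · exact hwB σ
    · exact le_refl _
  have hsum : ∀ t, ∑ x, aT R e μ0 t x * wb R w x + ∑ j ∈ range t, ∑ x, aT R e μ0 (j + 1) x ≤ B := by
    intro t
    induction t with
    | zero =>
      simp only [Finset.range_zero, Finset.sum_empty, add_zero]
      calc ∑ x, aT R e μ0 0 x * wb R w x ≤ ∑ x, aT R e μ0 0 x * B :=
            Finset.sum_le_sum fun x _ => mul_le_mul_of_nonneg_left (hwbB x) (h0 x)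
        _ = B := by rw [← Finset.sum_mul]; simp [aT, h1]
    | succ t ih =>
      rw [Finset.sum_range_succ]
      have := hstep t
      linarith
  have hanti : Antitone fun t => ∑ x, aT R e μ0 t x :=
    antitone_nat_of_succ_le fun t => aT_mass_le e he μ0 h0 t
  have hfin := hsum t
  have h2 : 0 ≤ ∑ x, aT R e μ0 t x * wb R w x :=
    Finset.sum_nonneg fun x _ => mul_nonneg (aT_nonneg e he μ0 h0 t x) (hwb0 x)
  have h3 : (t : ℝ) * ∑ x, aT R e μ0 t x ≤ ∑ j ∈ range t, ∑ x, aT R e μ0 (j + 1) x := by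
    have : ∑ _j ∈ range t, ∑ x, aT R e μ0 t x ≤ ∑ j ∈ range t, ∑ x, aT R e μ0 (j + 1) x := by
      refine Finset.sum_le_sum fun j hj => ?_
      rw [Finset.mem_range] at hj
      exact hanti (by omega)
    rw [Finset.sum_const, Finset.card_range, nsmul_eq_mul] at this
    exact this
  linarith

/-- stationarity bound -/
lemma stat_bound (e : S) (he : ∀ x, R e x) (w : S → ℝ) (hwe : w e = 0) {B : ℝ}
    (hw0 : ∀ σ, 0 ≤ w σ) (hwB : ∀ σ, w σ ≤ B)
    (hdrift : ∀ σ, σ ≠ e → (∑ x, if R σ x then wb R w x else 0) ≤ fx R σ * (w σ - 1)) :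
    (∑ x, sz R x) - fx R e ≤ B * ((univ.filter fun x : X => sz R x ≠ 1).card : ℝ) := by
  have hZ : ∑ x, sz R x = ∑ σ, fx R σ := by
    have h1 : ∀ x : X, sz R x = ∑ σ : S, if R σ x then (1 : ℝ) else 0 := fun x => by
      rw [sum_R_const, mul_one]
    have h2 : ∀ σ : S, fx R σ = ∑ x : X, if R σ x then (1 : ℝ) else 0 := fun σ => by
      rw [sum_R_const', mul_one]
    simp only [h1, h2]
    rw [Finset.sum_comm]
  have hW : ∑ σ : S, ∑ x : X, (if R σ x then wb R w x else 0) = ∑ σ : S, fx R σ * w σ := by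
    rw [Finset.sum_comm]
    have h3 : ∀ x : X, (∑ σ : S, if R σ x then wb R w x else 0) = ∑ σ : S, if R σ x then w σ else 0 := by
      intro x
      rw [sum_R_const]
      unfold wb
      have hx := sz_pos he x
      have hx' : sz R x ≠ 0 := by linarith
      field_simp
    rw [Finset.sum_congr rfl fun x _ => h3 x, Finset.sum_comm]
    refine Finset.sum_congr rfl fun σ _ => ?_
    rw [sum_R_const']
  have hsum : ∑ σ ∈ univ.erase e, fx R σ ≤ ∑ x, wb R w x := by
    have h1 : ∑ σ ∈ univ.erase e, fx R σ ≤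
        ∑ σ ∈ univ.erase e, (fx R σ * w σ - ∑ x : X, (if R σ x then wb R w x else 0)) := by
      refine Finset.sum_le_sum fun σ hσ => ?_
      have := hdrift σ (Finset.ne_of_mem_erase hσ)
      linarith
    have h2 : ∑ σ ∈ univ.erase e, (fx R σ * w σ - ∑ x : X, (if R σ x then wb R w x else 0)) =
        ∑ x, wb R w x := by
      rw [Finset.sum_erase_eq_sub (Finset.mem_univ e), Finset.sum_sub_distrib, hW, hwe]
      simp [he]
    linarith
  have hwb : ∑ x, wb R w x ≤ B * ((univ.filter fun x : X => sz R x ≠ 1).card : ℝ) := by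
    have h1 : ∀ x, wb R w x ≤ if sz R x ≠ 1 then B else 0 := by
      intro x
      split_ifs with h
      · unfold wb
        have hx := sz_pos he x
        rw [div_le_iff₀ (by linarith), mul_comm, ← sum_R_const]
        refine Finset.sum_le_sum fun σ _ => ?_
        split_ifs
        · exact hwB σ
        · exact le_refl _
      · push Not at h
        unfold wb
        rw [h, div_one]
        have h2 : ∀ σ, R σ x → σ = e := by
          intro σ hσ
          unfold sz at h
          have h3 : (univ.filter fun σ => R σ x).card = 1 := by exact_mod_cast h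
          rw [Finset.card_eq_one] at h3
          obtain ⟨a, ha⟩ := h3
          have h4 : σ ∈ univ.filter fun σ => R σ x := by simp [hσ]
          have h5 : e ∈ univ.filter fun σ => R σ x := by simp [he x]
          rw [ha, Finset.mem_singleton] at h4 h5
          rw [h4, h5]
        refine (Finset.sum_eq_zero fun σ _ => ?_).le
        split_ifs with h'
        · rw [h2 σ h', hwe]
        · rfl
    calc ∑ x, wb R w x ≤ ∑ x, if sz R x ≠ 1 then B else 0 := Finset.sum_le_sum fun x _ => h1 x
      _ = _ := by rw [← Finset.sum_filter, Finset.sum_const, nsmul_eq_mul, mul_comm]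
  rw [hZ, ← Finset.add_sum_erase _ _ (Finset.mem_univ e)]
  linarith

lemma mu_mass (e : S) (he : ∀ x, R e x) (μ : ℕ → X → ℝ)
    (h1 : ∑ x, μ 0 x = 1) (hrec : ∀ t y, μ (t + 1) y = ∑ x, μ t x * ker R x y) (t : ℕ) :
    ∑ x, μ t x = 1 := by
  induction t with
  | zero => exact h1
  | succ t ih =>
    simp only [hrec]
    rw [Finset.sum_comm]
    simp only [← Finset.mul_sum, sum_ker_one e he, mul_one]
    exact ih

/-- total variation bound from a Lyapunov function -/
theorem tv_bound (e : S) (he : ∀ x, R e x) (w : S → ℝ) (hwe : w e = 0) {B : ℝ}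
    (hw0 : ∀ σ, 0 ≤ w σ) (hwB : ∀ σ, w σ ≤ B)
    (hdrift : ∀ σ, σ ≠ e → (∑ x, if R σ x then wb R w x else 0) ≤ fx R σ * (w σ - 1))
    (μ : ℕ → X → ℝ) (h0 : ∀ x, 0 ≤ μ 0 x)
    (h1 : ∑ x, μ 0 x = 1) (hrec : ∀ t y, μ (t + 1) y = ∑ x, μ t x * ker R x y) (t : ℕ)
    (ht : 0 < t) :
    (1 / 2) * ∑ x, |μ t x - sz R x / ∑ y, sz R y| ≤
      B / t + B * ((univ.filter fun x : X => sz R x ≠ 1).card : ℝ) / fx R e := by
  have hX : Nonempty X := by
    by_contra h
    rw [not_nonempty_iff] at h
    simp at h1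
  obtain ⟨x0⟩ := hX
  have hfe : 0 < fx R e := fx_pos (he x0)
  have hZ : 0 < ∑ y, sz R y := Finset.sum_pos (fun y _ => by linarith [sz_pos he y]) ⟨x0, by simp⟩
  have hfZ : fx R e ≤ ∑ y, sz R y := by
    have : fx R e = ∑ _y : X, (1 : ℝ) := by
      unfold fx
      rw [Finset.filter_true_of_mem fun x _ => he x]; simp
    rw [this]
    exact Finset.sum_le_sum fun y _ => sz_pos he y
  have hmass := mass_bound e he w hwe hw0 hwB hdrift (μ 0) h0 h1 t
  have hstat := stat_bound e he w hwe hw0 hwB hdrift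
  set u : X → ℝ := fun x => aT R e (μ 0) t x + sz R x * (1 / fx R e - 1 / ∑ y, sz R y) with hu
  have hdiff0 : 0 ≤ 1 / fx R e - 1 / ∑ y, sz R y := by
    rw [sub_nonneg]; exact one_div_le_one_div_of_le hfe hfZ
  have hu0 : ∀ x, 0 ≤ u x := fun x => by
    have := sz_pos he x
    have := aT_nonneg e he (μ 0) h0 t x
    positivity
  have hle : ∀ x, μ t x - sz R x / ∑ y, sz R y ≤ u x := by
    intro x
    have h2 := mu_le e he μ h0 h1 hrec t x
    have h3 : (1 - ∑ x, aT R e (μ 0) t x) * (sz R x / fx R e) ≤ sz R x / fx R e := by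
      have h4 : 0 ≤ ∑ x, aT R e (μ 0) t x :=
        Finset.sum_nonneg fun x _ => aT_nonneg e he (μ 0) h0 t x
      have h5 : 0 ≤ sz R x / fx R e := by
        have := sz_pos he x
        positivity
      nlinarith
    simp only [hu]
    have h6 : sz R x * (1 / fx R e - 1 / ∑ y, sz R y) = sz R x / fx R e - sz R x / ∑ y, sz R y := by
      ring
    rw [h6]
    linarith
  have hsum0 : ∑ x, (μ t x - sz R x / ∑ y, sz R y) = 0 := by
    rw [Finset.sum_sub_distrib, mu_mass e he μ h1 hrec, ← Finset.sum_div, div_self hZ.ne', sub_self]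
  have habs : ∑ x, |μ t x - sz R x / ∑ y, sz R y| ≤ 2 * ∑ x, u x := by
    have h7 : ∀ x, |μ t x - sz R x / ∑ y, sz R y| ≤ 2 * u x - (μ t x - sz R x / ∑ y, sz R y) := by
      intro x
      rw [abs_le]
      constructor
      · linarith [hu0 x]
      · linarith [hle x]
    calc _ ≤ ∑ x, (2 * u x - (μ t x - sz R x / ∑ y, sz R y)) := Finset.sum_le_sum fun x _ => h7 x
      _ = 2 * ∑ x, u x := by rw [Finset.sum_sub_distrib, hsum0, ← Finset.mul_sum, sub_zero]
  have husum : ∑ x, u x = ∑ x, aT R e (μ 0) t x + ((∑ y, sz R y) - fx R e) / fx R e := by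
    simp only [hu]
    rw [Finset.sum_add_distrib, ← Finset.sum_mul]
    congr 1
    field_simp
  have ht' : (0 : ℝ) < t := by exact_mod_cast ht
  have h8 : ∑ x, aT R e (μ 0) t x ≤ B / t := by
    rw [le_div_iff₀ ht']
    linarith
  have h9 : ((∑ y, sz R y) - fx R e) / fx R e ≤
      B * ((univ.filter fun x : X => sz R x ≠ 1).card : ℝ) / fx R e :=
    div_le_div_of_nonneg_right hstat hfe.le
  linarith

/-- convergence for a fixed chain (Doeblin) -/
theorem doeblin (e : S) (he : ∀ x, R e x) (μ : ℕ → X → ℝ) (h0 : ∀ x, 0 ≤ μ 0 x)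
    (h1 : ∑ x, μ 0 x = 1) (hrec : ∀ t y, μ (t + 1) y = ∑ x, μ t x * ker R x y) (t : ℕ) :
    ∑ x, |μ t x - sz R x / ∑ y, sz R y| ≤ 2 * (1 - 1 / (Fintype.card S : ℝ)) ^ t := by
  have hX : Nonempty X := by
    by_contra h
    rw [not_nonempty_iff] at h
    simp at h1
  obtain ⟨x0⟩ := hX
  have hZ : 0 < ∑ y, sz R y := Finset.sum_pos (fun y _ => by linarith [sz_pos he y]) ⟨x0, by simp⟩
  have hS : (0 : ℝ) < Fintype.card S := by
    have : 0 < Fintype.card S := Fintype.card_pos_iff.2 ⟨e⟩
    exact_mod_cast this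
  have hXc : (0 : ℝ) < Fintype.card X := by
    have : 0 < Fintype.card X := Fintype.card_pos_iff.2 ⟨x0⟩
    exact_mod_cast this
  have hf : fx R e = Fintype.card X := by
    unfold fx; congr 1
    rw [Finset.filter_true_of_mem fun x _ => he x]; rfl
  have hszS : ∀ x, sz R x ≤ Fintype.card S := by
    intro x
    unfold sz
    exact_mod_cast Finset.card_le_univ _
  set ε : ℝ := 1 / (Fintype.card S * Fintype.card X) with hε
  have hker : ∀ x y, ε ≤ ker R x y := by
    intro x y
    rw [ker_eq e he]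
    have h2 := kerT_nonneg e he x y
    have h3 : ε ≤ 1 / (sz R x * fx R e) := by
      rw [hε, hf]
      have := sz_pos he x
      have := hszS x
      gcongr
    linarith
  induction t with
  | zero =>
    simp only [pow_zero, mul_one]
    calc ∑ x, |μ 0 x - sz R x / ∑ y, sz R y| ≤ ∑ x, (μ 0 x + sz R x / ∑ y, sz R y) := by
          refine Finset.sum_le_sum fun x _ => ?_
          have := h0 x
          have h5 : 0 ≤ sz R x / ∑ y, sz R y := div_nonneg (by linarith [sz_pos he x]) hZ.le
          rw [abs_le]; constructor <;> linarith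
      _ = 2 := by
          rw [Finset.sum_add_distrib, h1, ← Finset.sum_div, div_self hZ.ne']; norm_num
  | succ t ih =>
    set d : X → ℝ := fun x => μ t x - sz R x / ∑ y, sz R y with hd
    have hd0 : ∑ x, d x = 0 := by
      simp only [hd]
      rw [Finset.sum_sub_distrib, mu_mass e he μ h1 hrec, ← Finset.sum_div, div_self hZ.ne',
        sub_self]
    have hnext : ∀ y, μ (t + 1) y - sz R y / ∑ y, sz R y = ∑ x, d x * (ker R x y - ε) := by
      intro y
      have e1 : ∑ x, d x * (ker R x y - ε) = ∑ x, d x * ker R x y := by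
        simp only [mul_sub]
        rw [Finset.sum_sub_distrib, ← Finset.sum_mul, hd0]; ring
      rw [e1, hrec]
      simp only [hd, sub_mul]
      rw [Finset.sum_sub_distrib]
      congr 1
      rw [← sum_sz_ker e he y, Finset.sum_div]
      refine Finset.sum_congr rfl fun x _ => by ring
    calc ∑ y, |μ (t + 1) y - sz R y / ∑ y, sz R y|
        = ∑ y, |∑ x, d x * (ker R x y - ε)| := Finset.sum_congr rfl fun y _ => by rw [hnext]
      _ ≤ ∑ y, ∑ x, |d x| * (ker R x y - ε) := by
          refine Finset.sum_le_sum fun y _ => (Finset.abs_sum_le_sum_abs _ _).trans ?_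
          refine Finset.sum_le_sum fun x _ => ?_
          rw [abs_mul, abs_of_nonneg (sub_nonneg.2 (hker x y))]
      _ = ∑ x, |d x| * (1 - 1 / (Fintype.card S : ℝ)) := by
          rw [Finset.sum_comm]
          refine Finset.sum_congr rfl fun x _ => ?_
          rw [← Finset.mul_sum, Finset.sum_sub_distrib, sum_ker_one e he, Finset.sum_const,
            Finset.card_univ, nsmul_eq_mul, hε]
          congr 2
          field_simp
      _ = (∑ x, |d x|) * (1 - 1 / (Fintype.card S : ℝ)) := by rw [Finset.sum_mul]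
      _ ≤ (2 * (1 - 1 / (Fintype.card S : ℝ)) ^ t) * (1 - 1 / (Fintype.card S : ℝ)) := by
          refine mul_le_mul_of_nonneg_right ih ?_
          have h6 : (1 : ℝ) ≤ Fintype.card S := by
            have : 0 < Fintype.card S := Fintype.card_pos_iff.2 ⟨e⟩
            exact_mod_cast this
          have : 1 / (Fintype.card S : ℝ) ≤ 1 := by
            rw [div_le_one hS]; exact h6
          linarith
      _ = _ := by ring

end chain

end Pool.Agent.Lib_helper99.Burnside
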