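import Pool.Agent.Lib_helper99.Burnside.Few

set_option autoImplicit false
set_option linter.unusedSectionVars false

open Finset Equiv Filter

namespace Pool.Agent.Lib_helper99.Burnside

open scoped Classical

lemma ev_small {τ : ℝ} (h0 : 0 ≤ τ) (h1 : τ < 1) (k : ℕ) {ε : ℝ} (hε : 0 < ε) :
    ∃ N : ℕ, ∀ n ≥ N, (n : ℝ) ^ k * τ ^ n ≤ ε := by
  have := tendsto_pow_const_mul_const_pow_of_lt_one k h0 h1
  have h2 := this.eventually (gt_mem_nhds hε)
  rw [eventually_atTop] at h2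
  obtain ⟨N, hN⟩ := h2
  exact ⟨N, fun n hn => (hN n hn).le⟩

lemma term_bound {τ : ℝ} (h0 : 0 < τ) (h1 : τ < 1) (hτ : τ ^ 2 = 4 / 5) (r p : ℕ) (hp : 1 ≤ p)
    (hpr : p < r) (hr : (r : ℝ) * τ ^ r ≤ 1) :
    (r.choose p : ℝ) * (4 / 5 : ℝ) ^ (p * (r - p)) ≤ r * τ ^ r := by
  rw [← hτ, ← pow_mul]
  have hr0 : (0 : ℝ) ≤ (r : ℝ) * τ ^ r := by positivity
  have main : ∀ j : ℕ, 1 ≤ j → (r.choose p : ℝ) ≤ (r : ℝ) ^ j → r * j ≤ 2 * (p * (r - p)) →
      (r.choose p : ℝ) * τ ^ (2 * (p * (r - p))) ≤ r * τ ^ r := by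
    intro j hj hch hexp
    calc (r.choose p : ℝ) * τ ^ (2 * (p * (r - p))) ≤ (r : ℝ) ^ j * τ ^ (r * j) := by
          refine mul_le_mul hch (pow_le_pow_of_le_one h0.le h1.le hexp) (by positivity) (by positivity)
      _ = ((r : ℝ) * τ ^ r) ^ j := by rw [mul_pow, pow_mul]
      _ ≤ (r : ℝ) * τ ^ r := pow_le_of_le_one hr0 hr (by omega)
  rcases le_total p (r - p) with h | h
  · refine main p hp (by exact_mod_cast Nat.choose_le_pow r p) ?_
    have : r ≤ 2 * (r - p) := by omega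
    calc r * p ≤ (2 * (r - p)) * p := Nat.mul_le_mul_right _ this
      _ = _ := by ring
  · refine main (r - p) (by omega) ?_ ?_
    · rw [← Nat.choose_symm hpr.le]
      exact_mod_cast Nat.choose_le_pow r (r - p)
    · have : r ≤ 2 * p := by omega
      calc r * (r - p) ≤ (2 * p) * (r - p) := Nat.mul_le_mul_right _ this
        _ = _ := by ring

/-- (A): if `g` has many cycles, then a random `g`-invariant graph has, with high probability, no
merging of cycles. -/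
theorem caseA (ε : ℝ) (hε : 0 < ε) : ∃ r1 : ℕ, ∀ (V : Type) [Fintype V] (g : Perm V),
    r1 ≤ numC g → ((numC g : ℝ) + 1) *
      (((FixS g).filter (fun β => numO β < numC g)).card : ℝ) ≤ ε * (FixS g).card := by
  -- constants
  set ρ : ℝ := √(1 / 2) with hρdef
  have hρ0 : 0 < ρ := Real.sqrt_pos.2 (by norm_num)
  have hρ2 : ρ ^ 2 = 1 / 2 := Real.sq_sqrt (by norm_num)
  set τ : ℝ := √(4 / 5) with hτdef
  have hτ0 : 0 < τ := Real.sqrt_pos.2 (by norm_num)
  have hτ2 : τ ^ 2 = 4 / 5 := Real.sq_sqrt (by norm_num)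
  have hτ1 : τ < 1 := by nlinarith
  have hρ1 : 5 / 4 * ρ < 1 := by nlinarith
  obtain ⟨p0, hp0⟩ := ev_small (τ := 5 / 4 * ρ) (by positivity) hρ1 1 hρ0
  set p1 := max p0 2 with hp1
  have hp1' : ∀ p ≥ p1, (p : ℝ) * ρ ^ (p - 1) ≤ (4 / 5) ^ p := by
    intro p hp
    have h1 := hp0 p (le_trans (le_max_left _ _) hp)
    rw [pow_one, mul_pow] at h1
    have hp2 : 1 ≤ p := le_trans (by norm_num) (le_trans (le_max_right p0 2) hp)
    have h2 : ρ ^ p = ρ ^ (p - 1) * ρ := by rw [← pow_succ]; congr 1; omega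
    rw [h2] at h1
    have h3 : ((p : ℝ) * (5 / 4) ^ p * ρ ^ (p - 1)) * ρ ≤ 1 * ρ := by linarith
    have h4 := le_of_mul_le_mul_right h3 hρ0
    have h5 : (4 / 5 : ℝ) ^ p * (5 / 4) ^ p = 1 := by rw [← mul_pow]; norm_num
    calc (p : ℝ) * ρ ^ (p - 1) = (4 / 5 : ℝ) ^ p * ((p : ℝ) * (5 / 4) ^ p * ρ ^ (p - 1)) := by
          calc _ = ((4 / 5 : ℝ) ^ p * (5 / 4) ^ p) * ((p : ℝ) * ρ ^ (p - 1)) := by rw [h5, one_mul]
            _ = _ := by ring
      _ ≤ (4 / 5 : ℝ) ^ p * 1 := by gcongr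
      _ = _ := by ring
  set δ : ℝ := (1 / 8) ^ p1 with hδ
  have hδ0 : 0 < δ := by positivity
  obtain ⟨m0, hm0⟩ := choose_half_small δ hδ0
  obtain ⟨N1, hN1⟩ := ev_small hτ0.le hτ1 3 (show (0 : ℝ) < ε / 4 by positivity)
  obtain ⟨N2, hN2⟩ := ev_small hτ0.le hτ1 1 (show (0 : ℝ) < 1 by norm_num)
  obtain ⟨N3, hN3⟩ := ev_small (τ := 1 / 4) (by norm_num) (by norm_num) 1
    (show (0 : ℝ) < ε / (4 * 8 ^ (2 * p1)) by positivity)
  refine ⟨2 * m0 + 2 * p1 + N1 + N2 + N3 + 1, fun V _ g hr => ?_⟩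
  set r := numC g with hrdef
  have hr1 : 1 ≤ r := by omega
  have hr1' : (1 : ℝ) ≤ r := by exact_mod_cast hr1
  -- first part
  have hb1 := bad1_bound g hρ0 hρ2 p1
  rw [← hrdef] at hb1
  have hS1 : ∑ p ∈ (range r).filter (fun p => p1 ≤ p), ((r.choose p : ℝ) *
        ((p : ℝ) * ρ ^ (p - 1)) ^ (r - p)) ≤ r * (r * τ ^ r) := by
    calc _ ≤ ∑ _p ∈ (range r).filter (fun p => p1 ≤ p), ((r : ℝ) * τ ^ r) := by
          refine Finset.sum_le_sum fun p hp => ?_
          rw [Finset.mem_filter, Finset.mem_range] at hp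
          have hp2 : 1 ≤ p := le_trans (by norm_num) (le_trans (le_max_right p0 2) hp.2)
          have h1 : ((p : ℝ) * ρ ^ (p - 1)) ^ (r - p) ≤ (4 / 5 : ℝ) ^ (p * (r - p)) := by
            rw [pow_mul]
            exact pow_le_pow_left₀ (by positivity) (hp1' p hp.2) _
          have h2 := term_bound hτ0 hτ1 hτ2 r p hp2 hp.1 (by
            have := hN2 r (by omega)
            rwa [pow_one] at this)
          refine le_trans ?_ h2
          gcongr
      _ ≤ r * (r * τ ^ r) := by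
          rw [Finset.sum_const, nsmul_eq_mul]
          refine mul_le_mul_of_nonneg_right ?_ (by positivity)
          have := (Finset.card_filter_le (range r) (fun p => p1 ≤ p))
          rw [Finset.card_range] at this
          exact_mod_cast this
  -- second part
  have hb2 := bad2_bound g p1 (by omega) (le_max_right _ _) hδ0
    (fun m hm => hm0 m (by omega))
  rw [← hrdef] at hb2
  have hS2 : (2 : ℝ) ^ r * δ ^ (r / p1 - 1) ≤ 8 ^ (2 * p1) * (1 / 4) ^ r := by
    have hp1pos : 0 < p1 := lt_of_lt_of_le (by norm_num) (le_max_right p0 2)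
    have hexp : r - 2 * p1 ≤ p1 * (r / p1 - 1) := by
      have h1 : r < p1 * (r / p1 + 1) := by
        have := Nat.lt_mul_div_succ r hp1pos
        exact this
      have h2 : 1 ≤ r / p1 := (Nat.one_le_div_iff hp1pos).2 (by omega)
      obtain ⟨k, hk⟩ : ∃ k, r / p1 = k + 1 := ⟨r / p1 - 1, by omega⟩
      rw [hk] at h1 ⊢
      have h3 : p1 * (k + 1 + 1) = p1 * (k + 1 - 1) + 2 * p1 := by
        simp only [Nat.add_sub_cancel]; ring
      omega
    have h1 : δ ^ (r / p1 - 1) ≤ (1 / 8 : ℝ) ^ (r - 2 * p1) := by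
      rw [hδ, ← pow_mul]
      exact pow_le_pow_of_le_one (by norm_num) (by norm_num) hexp
    have h2 : (8 : ℝ) ^ (2 * p1) * (1 / 4) ^ r = 2 ^ r * (1 / 8 : ℝ) ^ (r - 2 * p1) := by
      have h3 : (1 / 4 : ℝ) ^ r = 2 ^ r * (1 / 8) ^ r := by rw [← mul_pow]; norm_num
      have h4 : (1 / 8 : ℝ) ^ r = (1 / 8) ^ (r - 2 * p1) * (1 / 8) ^ (2 * p1) := by
        rw [← pow_add]; congr 1; omega
      have h5 : (8 : ℝ) ^ (2 * p1) * (1 / 8) ^ (2 * p1) = 1 := by rw [← mul_pow]; norm_num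
      rw [h3, h4]
      calc _ = ((8 : ℝ) ^ (2 * p1) * (1 / 8) ^ (2 * p1)) * (2 ^ r * (1 / 8 : ℝ) ^ (r - 2 * p1)) := by
            ring
        _ = _ := by rw [h5, one_mul]
    rw [h2]
    gcongr
  -- union
  have hunion : (((FixS g).filter (fun β => numO β < r)).card : ℝ) ≤
      (((FixS g).filter (fun β => p1 ≤ numO β ∧ numO β < r)).card : ℝ) +
      (((FixS g).filter (fun β => numO β < p1)).card : ℝ) := by
    have : (FixS g).filter (fun β => numO β < r) ⊆
        ((FixS g).filter (fun β => p1 ≤ numO β ∧ numO β < r)) ∪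
        ((FixS g).filter (fun β => numO β < p1)) := by
      intro β hβ
      rw [Finset.mem_filter] at hβ
      rw [Finset.mem_union, Finset.mem_filter, Finset.mem_filter]
      rcases lt_or_ge (numO β) p1 with h | h
      · right; exact ⟨hβ.1, h⟩
      · left; exact ⟨hβ.1, h, hβ.2⟩
    exact_mod_cast (Finset.card_le_card this).trans (Finset.card_union_le _ _)
  have hfix : (0 : ℝ) ≤ (FixS g).card := Nat.cast_nonneg _
  have h1 : ((r : ℝ) + 1) * (r * (r * τ ^ r)) ≤ ε / 2 := by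
    have := hN1 r (by omega)
    have h3 : ((r : ℝ) + 1) * (r * (r * τ ^ r)) ≤ 2 * (r ^ 3 * τ ^ r) := by
      have : 0 ≤ (r : ℝ) * (r * τ ^ r) := by positivity
      calc ((r : ℝ) + 1) * (r * (r * τ ^ r)) ≤ (2 * r) * (r * (r * τ ^ r)) := by
            gcongr; linarith
        _ = _ := by ring
    linarith
  have h2 : ((r : ℝ) + 1) * (8 ^ (2 * p1) * (1 / 4) ^ r) ≤ ε / 2 := by
    have := hN3 r (by omega)
    rw [pow_one, le_div_iff₀ (by positivity)] at this
    have h3 : ((r : ℝ) + 1) * (8 ^ (2 * p1) * (1 / 4) ^ r) ≤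
        2 * r * (8 ^ (2 * p1) * (1 / 4) ^ r) := by
      have : 0 ≤ (8 : ℝ) ^ (2 * p1) * (1 / 4) ^ r := by positivity
      gcongr; linarith
    nlinarith
  calc ((r : ℝ) + 1) * (((FixS g).filter (fun β => numO β < r)).card : ℝ)
      ≤ ((r : ℝ) + 1) * ((r * (r * τ ^ r)) * (FixS g).card +
          (8 ^ (2 * p1) * (1 / 4) ^ r) * (FixS g).card) := by
        refine mul_le_mul_of_nonneg_left (hunion.trans (add_le_add ?_ ?_)) (by positivity)
        · exact hb1.trans (mul_le_mul_of_nonneg_right hS1 hfix)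
        · exact hb2.trans (mul_le_mul_of_nonneg_right hS2 hfix)
    _ = (((r : ℝ) + 1) * (r * (r * τ ^ r)) + ((r : ℝ) + 1) * (8 ^ (2 * p1) * (1 / 4) ^ r)) *
          (FixS g).card := by ring
    _ ≤ ε * (FixS g).card := by
        refine mul_le_mul_of_nonneg_right ?_ hfix
        linarith

end Pool.Agent.Lib_helper99.Burnside
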