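import Pool.Agent.Lib_helper99.Burnside.Merge

set_option autoImplicit false
set_option linter.unusedSectionVars false

open Finset Equiv

namespace Pool.Agent.Lib_helper99.Burnside

open scoped Classical

variable {V : Type*} [Fintype V]

/-- fixed points of `g` -/
noncomputable def fixF (g : Perm V) : Finset V := univ.filter (fun x => g x = x)

lemma mem_fixF {g : Perm V} {x : V} : x ∈ fixF g ↔ g x = x := by simp [fixF]

/-- the vertices of a cycle -/
noncomputable def cycF (g : Perm V) (q : Cyc g) : Finset V := univ.filter (fun x => mk g x = q)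

lemma mem_cycF {g : Perm V} {q : Cyc g} {x : V} : x ∈ cycF g q ↔ mk g x = q := by simp [cycF]

lemma zpow_fix {g : Perm V} {x : V} (h : g x = x) (k : ℤ) : (g ^ k) x = x :=
  Perm.zpow_apply_eq_self_of_apply_eq_self h k

lemma mk_g (g : Perm V) (x : V) : mk g (g x) = mk g x := by
  have := mk_zpow g 1 x
  rwa [zpow_one] at this

/-- short powers act freely on a long cycle -/
lemma cyc_free {g : Perm V} {x : V} {L : ℕ} (hL : L ≤ (cycF g (mk g x)).card) (k : ℤ)
    (hk : (g ^ k) x = x) (hkL : |k| < L) : k = 0 := by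
  by_contra hne
  -- natural power
  have hnat : (g ^ k.natAbs) x = x := by
    rcases Int.natAbs_eq k with h | h
    · rw [h] at hk
      rw [zpow_natCast] at hk
      exact hk
    · rw [h, zpow_neg, zpow_natCast] at hk
      have := congrArg (g ^ k.natAbs) hk
      rw [← Perm.mul_apply, mul_inv_cancel, Perm.one_apply] at this
      exact this.symm
  set d := k.natAbs with hd
  have hdpos : 0 < d := Int.natAbs_pos.2 hne
  have hdL : d < L := by
    have : ((d : ℕ) : ℤ) = |k| := by rw [hd]; exact (Int.abs_eq_natAbs k).symm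
    omega
  have hsub : cycF g (mk g x) ⊆ (range d).image (fun i => (g ^ i) x) := by
    intro y hy
    rw [mem_cycF, eq_comm, mk_eq] at hy
    obtain ⟨i, hi⟩ := hy.exists_nat_pow_eq
    rw [Finset.mem_image]
    refine ⟨i % d, by rw [Finset.mem_range]; exact Nat.mod_lt _ hdpos, ?_⟩
    rw [← hi]
    have h1 : ∀ j : ℕ, ((g ^ d) ^ j) x = x := by
      intro j
      induction j with
      | zero => simp
      | succ j ih => rw [pow_succ, Perm.mul_apply, hnat, ih]
    conv_rhs => rw [← Nat.mod_add_div i d, pow_add, pow_mul, Perm.mul_apply, h1]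
  have := (Finset.card_le_card hsub).trans Finset.card_image_le
  rw [Finset.card_range] at this
  omega

/-- relative double counting of flips -/
lemma dcX {ι : Type*} (X : Finset (SimpleGraph V)) (W : Finset ι) (M : Finset ι → SimpleGraph V)
    (hM : ∀ s ⊆ W, ∀ β ∈ X, symmDiff β (M s) ∈ X) (E : Finset (SimpleGraph V)) (hE : E ⊆ X) (K : ℕ)
    (hK : ∀ β ∈ X, (W.powerset.filter (fun s => symmDiff β (M s) ∈ E)).card ≤ K) :
    2 ^ W.card * E.card ≤ K * X.card := by
  have h1 : ∀ s ∈ W.powerset, (X.filter (fun β => symmDiff β (M s) ∈ E)).card = E.card := by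
    intro s hs
    rw [Finset.mem_powerset] at hs
    refine Finset.card_bij (fun β _ => symmDiff β (M s)) ?_ ?_ ?_
    · intro β hβ
      exact (Finset.mem_filter.1 hβ).2
    · intro β _ β' _ h
      exact symmDiff_left_injective _ h
    · intro γ hγ
      refine ⟨symmDiff γ (M s), ?_, by rw [symmDiff_symmDiff_cancel_right]⟩
      rw [Finset.mem_filter, symmDiff_symmDiff_cancel_right]
      exact ⟨hM s hs γ (hE hγ), hγ⟩
  calc 2 ^ W.card * E.card = ∑ s ∈ W.powerset, (X.filter
        (fun β => symmDiff β (M s) ∈ E)).card := by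
        rw [Finset.sum_congr rfl h1, Finset.sum_const, Finset.card_powerset, smul_eq_mul]
    _ = ∑ β ∈ X, (W.powerset.filter (fun s => symmDiff β (M s) ∈ E)).card := by
        simp only [Finset.card_filter]
        exact Finset.sum_comm
    _ ≤ ∑ _β ∈ X, K := Finset.sum_le_sum hK
    _ = _ := by rw [Finset.sum_const, smul_eq_mul, mul_comm]

/-- numbering of the fixed points -/
noncomputable def ix (g : Perm V) (x : V) : ℕ :=
  if h : x ∈ fixF g then ((fixF g).equivFin ⟨x, h⟩ : ℕ) else 0

lemma ix_lt {g : Perm V} {x : V} (h : x ∈ fixF g) : ix g x < (fixF g).card := by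
  unfold ix; rw [dif_pos h]; exact ((fixF g).equivFin ⟨x, h⟩).2

lemma ix_inj {g : Perm V} {x y : V} (hx : x ∈ fixF g) (hy : y ∈ fixF g) (h : ix g x = ix g y) :
    x = y := by
  unfold ix at h
  rw [dif_pos hx, dif_pos hy] at h
  have := (fixF g).equivFin.injective (Fin.ext h)
  exact congrArg Subtype.val this

lemma ix_surj (g : Perm V) {j : ℕ} (hj : j < (fixF g).card) : ∃ x ∈ fixF g, ix g x = j := by
  refine ⟨((fixF g).equivFin.symm ⟨j, hj⟩).1, ((fixF g).equivFin.symm ⟨j, hj⟩).2, ?_⟩
  unfold ix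
  rw [dif_pos ((fixF g).equivFin.symm ⟨j, hj⟩).2]
  simp

/-- the prescribed pattern on the fixed points -/
noncomputable def thr (g : Perm V) (qs : Cyc g) : SimpleGraph V where
  Adj a b := a ≠ b ∧ ((a ∈ fixF g ∧ b ∈ fixF g ∧ (fixF g).card ≤ ix g a + ix g b + 1) ∨
    (a ∈ fixF g ∧ mk g b = qs ∧ (fixF g).card ≤ 2 * ix g a + 1) ∨
    (b ∈ fixF g ∧ mk g a = qs ∧ (fixF g).card ≤ 2 * ix g b + 1))
  symm := ⟨by
    rintro a b ⟨hne, h⟩
    refine ⟨hne.symm, ?_⟩
    rcases h with ⟨h1, h2, h3⟩ | ⟨h1, h2, h3⟩ | ⟨h1, h2, h3⟩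
    · left; exact ⟨h2, h1, by omega⟩
    · right; right; exact ⟨h1, h2, h3⟩
    · right; left; exact ⟨h1, h2, h3⟩⟩
  loopless := ⟨fun a h => h.1 rfl⟩

lemma fix_g {g : Perm V} {x : V} : g x ∈ fixF g ↔ x ∈ fixF g := by
  rw [mem_fixF, mem_fixF]
  exact ⟨fun h => g.injective h, fun h => by rw [h, h]⟩

lemma ix_g (g : Perm V) (x : V) : ix g (g x) = ix g x := by
  by_cases h : x ∈ fixF g
  · rw [mem_fixF.1 h]
  · unfold ix
    rw [dif_neg h, dif_neg (fun h' => h (fix_g.1 h'))]

lemma Inv_thr (g : Perm V) (qs : Cyc g) : Inv g (thr g qs) := by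
  intro a b
  simp only [thr, fix_g, ix_g, mk_g, ne_eq, g.injective.eq_iff]

/-- overwriting the pairs meeting the fixed points -/
def ovw (g : Perm V) (qs : Cyc g) (β : SimpleGraph V) : SimpleGraph V where
  Adj a b := ((a ∈ fixF g ∨ b ∈ fixF g) ∧ (thr g qs).Adj a b) ∨
    (a ∉ fixF g ∧ b ∉ fixF g ∧ β.Adj a b)
  symm := ⟨by
    rintro a b (⟨h1, h2⟩ | ⟨h1, h2, h3⟩)
    · left; exact ⟨h1.symm, h2.symm⟩
    · right; exact ⟨h2, h1, h3.symm⟩⟩
  loopless := ⟨by
    rintro a (⟨_, h⟩ | ⟨_, _, h⟩)
    · exact h.ne rfl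
    · exact h.ne rfl⟩

/-- graphs with the prescribed pattern -/
noncomputable def Pat (g : Perm V) (qs : Cyc g) : Finset (SimpleGraph V) :=
  (FixS g).filter (fun β => ∀ u ∈ fixF g, ∀ y, (β.Adj u y ↔ (thr g qs).Adj u y))

lemma ovw_mem {g : Perm V} (qs : Cyc g) {β : SimpleGraph V} (hβ : Inv g β) :
    ovw g qs β ∈ Pat g qs := by
  unfold Pat
  rw [Finset.mem_filter, mem_FixS]
  constructor
  · intro a b
    simp only [ovw, fix_g]
    rw [Inv_thr g qs a b, hβ a b]
  · intro u hu y
    simp only [ovw]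
    constructor
    · rintro (⟨_, h⟩ | ⟨h, _⟩)
      · exact h
      · exact absurd hu h
    · intro h
      left; exact ⟨Or.inl hu, h⟩

lemma adj_rep {g : Perm V} {β : SimpleGraph V} (hβ : Inv g β) {u : V} (hu : u ∈ fixF g) (y : V) :
    β.Adj u y ↔ β.Adj u (rep g (mk g y)) := by
  have h : mk g (rep g (mk g y)) = mk g y := mk_rep g _
  rw [mk_eq] at h
  obtain ⟨k, hk⟩ := h
  rw [mem_fixF] at hu
  have h1 := hβ.zpow k u (rep g (mk g y))
  rw [zpow_fix hu, hk] at h1
  exact h1

/-- the pattern has probability bounded below -/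
lemma Pat_card (g : Perm V) (qs : Cyc g) :
    (FixS g).card ≤ (Pat g qs).card * 2 ^ ((fixF g).card * numC g) := by
  have h1 : (Pat g qs).card * 2 ^ ((fixF g).card * numC g) =
      ((Pat g qs) ×ˢ ((fixF g) ×ˢ (univ : Finset (Cyc g))).powerset).card := by
    rw [Finset.card_product, Finset.card_powerset, Finset.card_product, Finset.card_univ]; rfl
  rw [h1]
  refine Finset.card_le_card_of_injOn (fun β => (ovw g qs β,
    ((fixF g) ×ˢ (univ : Finset (Cyc g))).filter (fun w => β.Adj w.1 (rep g w.2)))) ?_ ?_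
  · intro β hβ
    rw [Finset.mem_coe, mem_FixS] at hβ
    rw [Finset.mem_coe, Finset.mem_product]
    exact ⟨ovw_mem qs hβ, Finset.mem_powerset.2 (Finset.filter_subset _ _)⟩
  · intro β hβ β' hβ' h
    rw [Finset.mem_coe, mem_FixS] at hβ hβ'
    simp only [Prod.mk.injEq] at h
    obtain ⟨h1, h2⟩ := h
    have hu : ∀ u ∈ fixF g, ∀ y, (β.Adj u y ↔ β'.Adj u y) := by
      intro u hu y
      rw [adj_rep hβ hu, adj_rep hβ' hu]
      have h3 := Finset.ext_iff.1 h2 (u, mk g y)
      rw [Finset.mem_filter, Finset.mem_filter] at h3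
      simp only [Finset.mem_product, Finset.mem_univ, and_true, hu, true_and] at h3
      exact h3
    ext a b
    by_cases ha : a ∈ fixF g
    · exact hu a ha b
    · by_cases hb : b ∈ fixF g
      · rw [β.adj_comm, β'.adj_comm]; exact hu b hb a
      · have h4 : (ovw g qs β).Adj a b ↔ (ovw g qs β').Adj a b := by rw [h1]
        simp only [ovw] at h4
        constructor
        · intro h
          rcases h4.1 (Or.inr ⟨ha, hb, h⟩) with ⟨h5, _⟩ | ⟨_, _, h5⟩
          · rcases h5 with h5 | h5
            · exact absurd h5 ha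
            · exact absurd h5 hb
          · exact h5
        · intro h
          rcases h4.2 (Or.inr ⟨ha, hb, h⟩) with ⟨h5, _⟩ | ⟨_, _, h5⟩
          · rcases h5 with h5 | h5
            · exact absurd h5 ha
            · exact absurd h5 hb
          · exact h5

/-- the degrees of the fixed points in the pattern -/
lemma deg_pat (g : Perm V) (qs : Cyc g) (hqs : 2 ≤ (cycF g qs).card) {β : SimpleGraph V}
    (hβ : β ∈ Pat g qs) {u : V} (hu : u ∈ fixF g) :
    nb β u univ = if (fixF g).card ≤ 2 * ix g u + 1 then ix g u + (cycF g qs).card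
      else ix g u + 1 := by
  set f := (fixF g).card with hf
  set i := ix g u with hi
  have hif : i < f := ix_lt hu
  have hpat := (Finset.mem_filter.1 hβ).2 u hu
  -- fixed points are not in the long cycle
  have hnot : ∀ y, y ∈ fixF g → mk g y ≠ qs := by
    intro y hy hq
    rw [mem_fixF] at hy
    have : cycF g qs ⊆ {y} := by
      intro z hz
      rw [mem_cycF, ← hq, eq_comm, mk_eq] at hz
      obtain ⟨k, hk⟩ := hz
      rw [zpow_fix hy] at hk
      rw [Finset.mem_singleton, hk]
    have := Finset.card_le_card this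
    rw [Finset.card_singleton] at this
    omega
  have hsplit : (univ.filter (fun y => β.Adj u y)) =
      ((fixF g).filter (fun y => y ≠ u ∧ f ≤ i + ix g y + 1)) ∪
        (cycF g qs).filter (fun _ => f ≤ 2 * i + 1) := by
    ext y
    simp only [Finset.mem_filter, Finset.mem_univ, true_and, Finset.mem_union, mem_cycF]
    rw [hpat y]
    simp only [thr]
    constructor
    · rintro ⟨hne, ⟨_, h2, h3⟩ | ⟨_, h2, h3⟩ | ⟨_, h2, _⟩⟩
      · left; exact ⟨h2, hne.symm, h3⟩
      · right; exact ⟨h2, h3⟩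
      · exact absurd h2 (hnot u hu)
    · rintro (⟨h1, h2, h3⟩ | ⟨h1, h2⟩)
      · exact ⟨fun h => h2 h.symm, Or.inl ⟨hu, h1, h3⟩⟩
      · refine ⟨fun h => ?_, Or.inr (Or.inl ⟨hu, h1, h2⟩)⟩
        rw [← h] at h1
        exact hnot u hu h1
  have hdisj : Disjoint ((fixF g).filter (fun y => y ≠ u ∧ f ≤ i + ix g y + 1))
      ((cycF g qs).filter (fun _ => f ≤ 2 * i + 1)) := by
    rw [Finset.disjoint_left]
    intro y hy hy'
    rw [Finset.mem_filter] at hy hy'
    exact hnot y hy.1 (mem_cycF.1 hy'.1)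
  have hcard1 : ((fixF g).filter (fun y => y ≠ u ∧ f ≤ i + ix g y + 1)).card =
      ((Finset.Ico (f - 1 - i) f).erase i).card := by
    refine Finset.card_bij (fun y _ => ix g y) ?_ ?_ ?_
    · intro y hy
      rw [Finset.mem_filter] at hy
      rw [Finset.mem_erase, Finset.mem_Ico]
      refine ⟨fun h => hy.2.1 (ix_inj hy.1 hu h), by omega, ix_lt hy.1⟩
    · intro y hy y' hy' h
      exact ix_inj (Finset.mem_filter.1 hy).1 (Finset.mem_filter.1 hy').1 h
    · intro j hj
      rw [Finset.mem_erase, Finset.mem_Ico] at hj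
      obtain ⟨y, hy, hyj⟩ := ix_surj g (j := j) hj.2.2
      refine ⟨y, ?_, hyj⟩
      rw [Finset.mem_filter]
      refine ⟨hy, fun h => ?_, by omega⟩
      apply hj.1
      rw [← hyj, h]
  unfold nb
  rw [hsplit, Finset.card_union_of_disjoint hdisj, hcard1]
  by_cases hc : f ≤ 2 * i + 1
  · rw [if_pos hc, Finset.filter_true_of_mem (fun _ _ => hc), Finset.card_erase_of_mem,
      Nat.card_Ico]
    · omega
    · rw [Finset.mem_Ico]; omega
  · rw [if_neg hc, Finset.filter_false_of_mem (fun _ _ => hc), Finset.card_empty,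
      Finset.erase_eq_of_notMem, Nat.card_Ico]
    · omega
    · rw [Finset.mem_Ico]; omega

/-- union of pair orbits inside a cycle -/
def maskZ (g : Perm V) (x : V) (s : Finset ℕ) : SimpleGraph V where
  Adj a b := ∃ d ∈ s, (po g x ((g ^ d) x)).Adj a b
  symm := ⟨fun _ _ ⟨w, hw, h⟩ => ⟨w, hw, h.symm⟩⟩
  loopless := ⟨fun _ ⟨_, _, h⟩ => h.ne rfl⟩

lemma maskZ_mk {g : Perm V} {x : V} {s : Finset ℕ} {a b : V} (h : (maskZ g x s).Adj a b) :
    mk g a = mk g x := by
  obtain ⟨d, _, h⟩ := h
  rcases mk_of_po h with ⟨h1, _⟩ | ⟨h1, _⟩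
  · exact h1
  · rw [h1]
    have := mk_zpow g d x
    rwa [zpow_natCast] at this

lemma Inv_maskZ (g : Perm V) (x : V) (s : Finset ℕ) : Inv g (maskZ g x s) := fun a b =>
  exists_congr fun _ => and_congr_right fun _ => Inv_po g _ _ a b

lemma mem_Yo_zpow {g : Perm V} {x : V} {d : ℕ} {y : V} (h : y ∈ Yo g x ((g ^ d) x)) :
    y = (g ^ (d : ℤ)) x ∨ y = (g ^ (-(d : ℤ))) x := by
  rw [mem_Yo] at h
  obtain ⟨_, k, hk⟩ := h
  rcases hk with ⟨h1, h2⟩ | ⟨h1, h2⟩
  · left
    rw [← h2, ← zpow_natCast, ← Perm.mul_apply, ← zpow_add, add_comm, zpow_add, Perm.mul_apply, h1]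
  · right
    rw [← zpow_natCast, ← Perm.mul_apply, ← zpow_add] at h2
    have : (g ^ (-(d : ℤ))) ((g ^ (k + (d : ℤ))) x) = (g ^ k) x := by
      rw [← Perm.mul_apply, ← zpow_add]; congr 2; ring
    rw [h2] at this
    rw [← h1, this]

/-- (B): if `g` has few cycles on a large set, then with probability bounded below a random
`g`-invariant graph has more orbits than `g` has fixed points. -/
theorem caseB (r0 : ℕ) : ∃ (p0 : ℝ) (n0 : ℕ), 0 < p0 ∧ ∀ (V : Type) [Fintype V] (g : Perm V),
    numC g < r0 → n0 ≤ Fintype.card V → (fixF g).card < r0 →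
      p0 * (FixS g).card ≤ (((FixS g).filter (fun β => (fixF g).card + 1 ≤ numO β)).card : ℝ) := by
  obtain ⟨m0, hm0⟩ := choose_half_small (1 / (2 * (r0 + 1))) (by positivity)
  set m := m0 + 1 with hm
  set L := 2 * m + 2 with hL
  refine ⟨1 / (2 * 2 ^ (r0 * r0)), r0 * L + 1, by positivity, fun V _ g hr hn hf => ?_⟩
  set f := (fixF g).card with hfdef
  -- a long cycle
  have hVne : (univ : Finset V).Nonempty := by
    rw [← Finset.card_pos, Finset.card_univ]; omega
  obtain ⟨v0, _⟩ := hVne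
  have hcyc : ∃ qs ∈ (univ : Finset (Cyc g)), L ≤ (univ.filter (fun x => mk g x = qs)).card := by
    refine Finset.exists_le_card_fiber_of_mul_le_card_of_maps_to (fun _ _ => Finset.mem_univ _)
      ⟨mk g v0, Finset.mem_univ _⟩ ?_
    rw [Finset.card_univ, Finset.card_univ]
    have h1 : Fintype.card (Cyc g) ≤ r0 := hr.le
    calc Fintype.card (Cyc g) * L ≤ r0 * L := Nat.mul_le_mul_right _ h1
      _ ≤ Fintype.card V := by omega
  obtain ⟨qs, _, hqs⟩ := hcyc
  have hqs' : L ≤ (cycF g qs).card := hqs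
  set x := rep g qs with hx
  have hmkx : mk g x = qs := mk_rep g qs
  have hfree : ∀ k : ℤ, (g ^ k) x = x → |k| < L → k = 0 := fun k hk hkL =>
    cyc_free (by rw [hmkx]; exact hqs') k hk hkL
  have hxF : ∀ y, mk g y = qs → y ∉ fixF g := by
    intro y hy hyF
    rw [mem_fixF] at hyF
    have : cycF g qs ⊆ {y} := by
      intro z hz
      rw [mem_cycF, ← hy, eq_comm, mk_eq] at hz
      obtain ⟨k, hk⟩ := hz
      rw [zpow_fix hyF] at hk
      rw [Finset.mem_singleton, hk]
    have := Finset.card_le_card this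
    rw [Finset.card_singleton] at this
    omega
  set X := Pat g qs with hX
  -- closed under flips inside the long cycle
  have hclosed : ∀ s ⊆ Finset.Icc 1 m, ∀ β ∈ X, symmDiff β (maskZ g x s) ∈ X := by
    intro s _ β hβ
    rw [hX] at hβ ⊢
    unfold Pat at hβ ⊢
    rw [Finset.mem_filter, mem_FixS] at hβ ⊢
    refine ⟨hβ.1.symmDiff (Inv_maskZ g x s), fun u hu y => ?_⟩
    rw [symmDiff_adj, ← hβ.2 u hu y]
    have : ¬ (maskZ g x s).Adj u y := fun h => hxF u ((maskZ_mk h).trans hmkx) hu
    rw [iff_false_right this]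
    exact not_not
  -- anticoncentration of the degree of the long cycle
  have hanti : ∀ c : ℕ, ((X.filter (fun β => nb β x univ = c)).card : ℝ) ≤
      1 / (2 * (r0 + 1)) * X.card := by
    intro c
    have h1 := dcX X (Finset.Icc 1 m) (maskZ g x) hclosed (X.filter (fun β => nb β x univ = c))
      (Finset.filter_subset _ _) ((Finset.Icc 1 m).card.choose ((Finset.Icc 1 m).card / 2)) ?_
    · rw [Nat.card_Icc, Nat.add_sub_cancel] at h1
      have h2 := hm0 m (by omega)
      have h3 : (2 : ℝ) ^ m * ((X.filter (fun β => nb β x univ = c)).card : ℝ) ≤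
          ((m.choose (m / 2) : ℕ) : ℝ) * X.card := by exact_mod_cast h1
      have h4 : (2 : ℝ) ^ m * ((X.filter (fun β => nb β x univ = c)).card : ℝ) ≤
          2 ^ m * (1 / (2 * (r0 + 1)) * X.card) := by
        calc _ ≤ _ := h3
          _ ≤ (1 / (2 * (r0 + 1)) * 2 ^ m) * X.card := by gcongr
          _ = _ := by ring
      exact le_of_mul_le_mul_left h4 (by positivity)
    · intro β hβ
      have hβi : Inv g β := by
        rw [hX] at hβ
        exact mem_FixS.1 (Finset.mem_filter.1 hβ).1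
      refine le_trans (Finset.card_le_card ?_) (row_bound g β hβi x univ (Finset.Icc 1 m)
        (fun d => (g ^ d) x) ?_ (fun _ _ => Finset.subset_univ _) ?_ (maskZ g x) ?_ c)
      · intro s hs
        rw [Finset.mem_filter] at hs ⊢
        exact ⟨hs.1, (Finset.mem_filter.1 hs.2).2⟩
      · intro d hd h
        rw [Finset.mem_Icc] at hd
        have h1 : (g ^ (d : ℤ)) x = x := by rw [zpow_natCast]; exact h.symm
        have := hfree d h1 (by rw [abs_of_nonneg (by positivity)]; omega)
        omega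
      · intro d hd d' hd' y hy hy'
        rw [Finset.mem_Icc] at hd hd'
        have key : ∀ a b : ℤ, (g ^ a) x = (g ^ b) x → |a - b| < L → a = b := by
          intro a b hab hlt
          have h1 : (g ^ (a - b)) x = x := by
            rw [sub_eq_neg_add, zpow_add, Perm.mul_apply, hab, ← Perm.mul_apply, ← zpow_add]
            simp
          have := hfree _ h1 hlt
          omega
        have hb : ∀ a b : ℤ, (a = d ∨ a = -d) → (b = d' ∨ b = -d') → |a - b| < L := by
          intro a b ha hb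
          rw [abs_lt]
          rcases ha with rfl | rfl <;> rcases hb with rfl | rfl <;> constructor <;> omega
        rcases mem_Yo_zpow hy with h1 | h1 <;> rcases mem_Yo_zpow hy' with h2 | h2
        · have := key _ _ (h1.symm.trans h2) (hb _ _ (Or.inl rfl) (Or.inl rfl)); omega
        · have := key _ _ (h1.symm.trans h2) (hb _ _ (Or.inl rfl) (Or.inr rfl)); omega
        · have := key _ _ (h1.symm.trans h2) (hb _ _ (Or.inr rfl) (Or.inl rfl)); omega
        · have := key _ _ (h1.symm.trans h2) (hb _ _ (Or.inr rfl) (Or.inr rfl)); omega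
      · intro s _ y _
        constructor
        · rintro ⟨d, hd, h⟩
          exact ⟨d, hd, mem_Yo.2 h⟩
        · rintro ⟨d, hd, h⟩
          exact ⟨d, hd, mem_Yo.1 h⟩
  -- the good event
  set D : V → ℕ := fun u => if f ≤ 2 * ix g u + 1 then ix g u + (cycF g qs).card
      else ix g u + 1 with hD
  have hDinj : ∀ u ∈ fixF g, ∀ u' ∈ fixF g, D u = D u' → u = u' := by
    intro u hu u' hu' h
    have h1 := ix_lt hu
    have h2 := ix_lt hu'
    apply ix_inj hu hu'
    simp only [hD] at h
    split_ifs at h <;> omega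
  have hgood : X.filter (fun β => ∀ u ∈ fixF g, nb β x univ ≠ D u) ⊆
      (FixS g).filter (fun β => f + 1 ≤ numO β) := by
    intro β hβ
    rw [Finset.mem_filter] at hβ
    obtain ⟨hβX, hne⟩ := hβ
    have hβi : Inv g β := by
      rw [hX] at hβX
      exact mem_FixS.1 (Finset.mem_filter.1 hβX).1
    rw [Finset.mem_filter]
    refine ⟨mem_FixS.2 hβi, ?_⟩
    have hdeg : ∀ u ∈ fixF g, nb β u univ = D u := fun u hu =>
      deg_pat g qs (by omega) (by rw [← hX]; exact hβX) hu
    have horb : ∀ a b : V, oc β a = oc β b → nb β a univ = nb β b univ := fun a b h =>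
      nb_orb h univ (fun _ _ _ => by simp)
    have hcard : (insert x (fixF g)).card = f + 1 := by
      rw [Finset.card_insert_of_notMem (hxF x hmkx)]
    rw [← hcard]
    unfold numO
    rw [← Finset.card_univ]
    refine Finset.card_le_card_of_injOn (oc β) (fun _ _ => Finset.mem_coe.2 (Finset.mem_univ _)) ?_
    intro a ha b hb hab
    rw [Finset.mem_coe, Finset.mem_insert] at ha hb
    have h1 := horb a b hab
    rcases ha with rfl | ha <;> rcases hb with rfl | hb
    · rfl
    · rw [hdeg b hb] at h1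
      exact absurd h1 (hne b hb)
    · rw [hdeg a ha] at h1
      exact absurd h1.symm (hne a ha)
    · rw [hdeg a ha, hdeg b hb] at h1
      exact hDinj a ha b hb h1
  -- counting
  have hcount : (1 / 2 : ℝ) * X.card ≤
      ((X.filter (fun β => ∀ u ∈ fixF g, nb β x univ ≠ D u)).card : ℝ) := by
    have h1 : X.filter (fun β => ¬ ∀ u ∈ fixF g, nb β x univ ≠ D u) ⊆
        (fixF g).biUnion (fun u => X.filter (fun β => nb β x univ = D u)) := by
      intro β hβ
      rw [Finset.mem_filter] at hβ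
      obtain ⟨h2, h3⟩ := hβ
      push Not at h3
      obtain ⟨u, hu, h4⟩ := h3
      rw [Finset.mem_biUnion]
      exact ⟨u, hu, Finset.mem_filter.2 ⟨h2, h4⟩⟩
    have h2 : ((X.filter (fun β => ¬ ∀ u ∈ fixF g, nb β x univ ≠ D u)).card : ℝ) ≤
        1 / 2 * X.card := by
      calc ((X.filter (fun β => ¬ ∀ u ∈ fixF g, nb β x univ ≠ D u)).card : ℝ)
          ≤ (((fixF g).biUnion (fun u => X.filter (fun β => nb β x univ = D u))).card : ℝ) := by
            exact_mod_cast Finset.card_le_card h1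
        _ ≤ ∑ u ∈ fixF g, ((X.filter (fun β => nb β x univ = D u)).card : ℝ) := by
            exact_mod_cast Finset.card_biUnion_le
        _ ≤ ∑ _u ∈ fixF g, (1 / (2 * ((r0 : ℝ) + 1)) * X.card) :=
            Finset.sum_le_sum fun u _ => hanti (D u)
        _ = (f : ℝ) * (1 / (2 * ((r0 : ℝ) + 1)) * X.card) := by
            rw [Finset.sum_const, nsmul_eq_mul]
        _ ≤ ((r0 : ℝ) + 1) * (1 / (2 * ((r0 : ℝ) + 1)) * X.card) := by
            have : (f : ℝ) ≤ (r0 : ℝ) + 1 := by
              have : (f : ℝ) ≤ r0 := by exact_mod_cast hf.le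
              linarith
            gcongr
        _ = _ := by field_simp
    have h3 := Finset.card_filter_add_card_filter_not (s := X)
      (fun β => ∀ u ∈ fixF g, nb β x univ ≠ D u)
    have h4 : ((X.filter (fun β => ∀ u ∈ fixF g, nb β x univ ≠ D u)).card : ℝ) +
        ((X.filter (fun β => ¬ ∀ u ∈ fixF g, nb β x univ ≠ D u)).card : ℝ) = X.card := by
      exact_mod_cast h3
    linarith
  have hpat := Pat_card g qs
  have hpat' : ((FixS g).card : ℝ) ≤ X.card * 2 ^ (r0 * r0) := by
    have h1 : ((FixS g).card : ℝ) ≤ X.card * 2 ^ (f * numC g) := by exact_mod_cast hpat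
    refine h1.trans ?_
    have h2 : f * numC g ≤ r0 * r0 := Nat.mul_le_mul hf.le hr.le
    have h3 : (2 : ℝ) ^ (f * numC g) ≤ 2 ^ (r0 * r0) := pow_le_pow_right₀ (by norm_num) h2
    gcongr
  calc 1 / (2 * 2 ^ (r0 * r0)) * ((FixS g).card : ℝ)
      ≤ 1 / (2 * 2 ^ (r0 * r0)) * (X.card * 2 ^ (r0 * r0)) := by gcongr
    _ = 1 / 2 * X.card := by field_simp
    _ ≤ _ := hcount
    _ ≤ _ := by exact_mod_cast Finset.card_le_card hgood

end Pool.Agent.Lib_helper99.Burnside
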