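import Pool.Agent.Lib_helper99.Burnside.Submult

set_option autoImplicit false
set_option linter.unusedSectionVars false

namespace Pool.Agent.Lib_helper99.Burnside

open scoped Classical

variable {V : Type} [Fintype V]

lemma comap_iff (σ : Equiv.Perm V) (γ : SimpleGraph V) :
    SimpleGraph.comap (⇑σ) γ = γ ↔ Inv σ γ := by
  constructor
  · intro h x y
    have : (SimpleGraph.comap (⇑σ) γ).Adj x y ↔ γ.Adj x y := by rw [h]
    exact this
  · intro h
    ext x y
    exact h x y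

lemma ncard_stab (γ : SimpleGraph V) :
    (({τ : Equiv.Perm V | SimpleGraph.comap (⇑τ) γ = γ}).ncard : ℝ) =
      sz (Inv : Equiv.Perm V → SimpleGraph V → Prop) γ := by
  unfold sz
  congr 1
  rw [Set.ncard_eq_toFinset_card']
  congr 1
  ext τ
  simp [comap_iff]

lemma ncard_fix (σ : Equiv.Perm V) :
    (({δ : SimpleGraph V | SimpleGraph.comap (⇑σ) δ = δ}).ncard : ℝ) =
      fx (Inv : Equiv.Perm V → SimpleGraph V → Prop) σ := by
  unfold fx
  congr 1
  rw [Set.ncard_eq_toFinset_card']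
  congr 1
  ext τ
  simp [comap_iff]

lemma kernel_eq (γ β : SimpleGraph V) :
    (∑ᶠ σ ∈ {σ : Equiv.Perm V |
            SimpleGraph.comap (⇑σ) γ = γ ∧ SimpleGraph.comap (⇑σ) β = β},
          1 / ((({τ : Equiv.Perm V | SimpleGraph.comap (⇑τ) γ = γ}).ncard : ℝ) *
               (({δ : SimpleGraph V | SimpleGraph.comap (⇑σ) δ = δ}).ncard : ℝ))) =
      ker (Inv : Equiv.Perm V → SimpleGraph V → Prop) γ β := by
  unfold ker
  rw [finsum_mem_def, finsum_eq_sum_of_fintype]
  refine Finset.sum_congr rfl fun σ _ => ?_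
  rw [Set.indicator_apply, ncard_stab, ncard_fix]
  simp only [Set.mem_ofPred_eq, comap_iff]

/-- transfer of the chain written with finite sums -/
theorem chain_of (α : SimpleGraph V) (μ : ℕ → SimpleGraph V → ℝ)
    (h0 : μ 0 α = 1) (h1 : ∀ β : SimpleGraph V, β ≠ α → μ 0 β = 0)
    (hrec : ∀ (t : ℕ) (β : SimpleGraph V),
      μ (t + 1) β = ∑ᶠ γ : SimpleGraph V, μ t γ *
        ∑ᶠ σ ∈ {σ : Equiv.Perm V |
            SimpleGraph.comap (⇑σ) γ = γ ∧ SimpleGraph.comap (⇑σ) β = β},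
          1 / ((({τ : Equiv.Perm V | SimpleGraph.comap (⇑τ) γ = γ}).ncard : ℝ) *
               (({δ : SimpleGraph V | SimpleGraph.comap (⇑σ) δ = δ}).ncard : ℝ))) :
    IsChain V μ := by
  refine ⟨fun x => ?_, ?_, fun t y => ?_⟩
  · by_cases hx : x = α
    · rw [hx, h0]; norm_num
    · rw [h1 x hx]
  · rw [Finset.sum_eq_single α (fun b _ hb => h1 b hb) (fun h => absurd (Finset.mem_univ _) h), h0]
  · rw [hrec, finsum_eq_sum_of_fintype]
    exact Finset.sum_congr rfl fun x _ => by rw [kernel_eq]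

theorem dTV_eq (μ : ℕ → SimpleGraph V → ℝ) (t : ℕ) :
      (1 / 2 : ℝ) * ∑ᶠ β : SimpleGraph V,
        |μ t β - (({τ : Equiv.Perm V | SimpleGraph.comap (⇑τ) β = β}).ncard : ℝ) /
          ∑ᶠ γ : SimpleGraph V,
            (({τ : Equiv.Perm V | SimpleGraph.comap (⇑τ) γ = γ}).ncard : ℝ)| = dTV V μ t := by
  unfold dTV
  rw [finsum_eq_sum_of_fintype, finsum_eq_sum_of_fintype]
  simp only [ncard_stab]

end Pool.Agent.Lib_helper99.Burnside
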