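import Pool.Agent.Lib_helper99.Burnside.CaseA
import Pool.Agent.Lib_helper99.Burnside.CaseB
import Pool.Agent.Lib_helper99.Burnside.Abstract

set_option autoImplicit false
set_option linter.unusedSectionVars false

open Finset Equiv

namespace Pool.Agent.Lib_helper99.Burnside

open scoped Classical

section potential

variable (a : ℝ) (r0 : ℕ)

/-- slopes of the potential -/
noncomputable def slope (i : ℕ) : ℝ := (a - 1) * a ^ (min i r0)

/-- the convex potential -/
noncomputable def Psi (k : ℕ) : ℝ := 1 + ∑ i ∈ range k, slope a r0 i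

variable {a r0}

lemma slope_mono (ha : 1 ≤ a) {i j : ℕ} (h : i ≤ j) : slope a r0 i ≤ slope a r0 j := by
  unfold slope
  refine mul_le_mul_of_nonneg_left (pow_le_pow_right₀ ha ?_) (by linarith)
  exact min_le_min_right _ h

lemma slope_nonneg (ha : 1 ≤ a) (i : ℕ) : 0 ≤ slope a r0 i := by
  unfold slope
  have : 0 ≤ a - 1 := by linarith
  positivity

lemma Psi_succ (k : ℕ) : Psi a r0 (k + 1) = Psi a r0 k + slope a r0 k := by
  unfold Psi
  rw [Finset.sum_range_succ]
  ring

lemma Psi_mono (ha : 1 ≤ a) {k j : ℕ} (h : k ≤ j) : Psi a r0 k ≤ Psi a r0 j := by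
  induction j, h using Nat.le_induction with
  | base => exact le_refl _
  | succ j _ ih =>
    rw [Psi_succ]
    linarith [slope_nonneg (r0 := r0) ha j]

lemma Psi_nonneg (ha : 1 ≤ a) (k : ℕ) : 0 ≤ Psi a r0 k := by
  have h := Psi_mono (r0 := r0) ha (Nat.zero_le k)
  have h0 : Psi a r0 0 = 1 := by simp [Psi]
  linarith

lemma Psi_small {k : ℕ} (h : k ≤ r0) : Psi a r0 k = a ^ k := by
  induction k with
  | zero => simp [Psi]
  | succ k ih =>
    rw [Psi_succ, ih (by omega)]
    unfold slope
    rw [min_eq_left (by omega)]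
    ring

lemma Psi_le (ha : 1 ≤ a) (k : ℕ) : Psi a r0 k ≤ (k + 1) * a ^ (r0 + 1) := by
  induction k with
  | zero =>
    simp only [Psi, Finset.range_zero, Finset.sum_empty, add_zero, Nat.cast_zero, zero_add, one_mul]
    exact one_le_pow₀ ha
  | succ k ih =>
    rw [Psi_succ]
    have : slope a r0 k ≤ a ^ (r0 + 1) := by
      unfold slope
      calc (a - 1) * a ^ (min k r0) ≤ a * a ^ r0 := by
            refine mul_le_mul (by linarith) (pow_le_pow_right₀ ha (min_le_right _ _))
              (by positivity) (by linarith)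
        _ = a ^ (r0 + 1) := by ring
    push_cast
    linarith

lemma Psi_tangent (ha : 1 ≤ a) (k j : ℕ) :
    Psi a r0 j + slope a r0 j * ((k : ℝ) - j) ≤ Psi a r0 k := by
  rcases le_total j k with h | h
  · obtain ⟨d, rfl⟩ := Nat.exists_eq_add_of_le h
    induction d with
    | zero => simp
    | succ d ih =>
      have h1 := ih (by omega)
      have h2 := slope_mono (r0 := r0) ha (show j ≤ j + d by omega)
      rw [← add_assoc, Psi_succ]
      push_cast at h1 ⊢
      linarith
  · obtain ⟨d, rfl⟩ := Nat.exists_eq_add_of_le h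
    induction d with
    | zero => simp
    | succ d ih =>
      have h1 := ih (by omega)
      have h2 := slope_mono (r0 := r0) ha (show k + d ≤ k + d + 1 by omega)
      rw [← add_assoc, Psi_succ]
      push_cast at h1 ⊢
      have h3 : slope a r0 (k + d) * ((d : ℝ) + 1) ≤ slope a r0 (k + d + 1) * ((d : ℝ) + 1) := by
        gcongr
      linarith

end potential

section graph

variable {V : Type} [Fintype V]

lemma sz_eq (β : SimpleGraph V) : sz (X := SimpleGraph V) (S := Perm V) Inv β =
    (Fintype.card (autG β) : ℝ) := by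
  unfold sz
  congr 1
  rw [Fintype.card_subtype]
  rfl

lemma fx_eq (g : Perm V) : fx (X := SimpleGraph V) (S := Perm V) Inv g = ((FixS g).card : ℝ) := rfl

lemma Inv_one (β : SimpleGraph V) : Inv 1 β := fun _ _ => Iff.rfl

/-- Burnside's lemma -/
lemma burnside (β : SimpleGraph V) :
    (∑ g : Perm V, if Inv g β then ((fixF g).card : ℝ) else 0) =
      (numO β : ℝ) * sz (X := SimpleGraph V) (S := Perm V) Inv β := by
  have h := MulAction.sum_card_fixedBy_eq_card_orbits_mul_card_group (autG β) V
  have h1 : ∑ h : autG β, Fintype.card (MulAction.fixedBy V h) =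
      ∑ g ∈ (univ : Finset (Perm V)).filter (fun g => Inv g β), (fixF g).card := by
    rw [← Finset.sum_subtype_eq_sum_filter (s := (univ : Finset (Perm V)))
      (p := fun g => Inv g β) (f := fun g => (fixF g).card)]
    refine Finset.sum_bij (fun h _ => ⟨h.1, h.2⟩) ?_ ?_ ?_ ?_
    · intro h _
      simp
    · intro h _ h' _ he
      simp only [Subtype.mk.injEq] at he
      exact Subtype.ext he
    · intro h _
      exact ⟨⟨h.1, h.2⟩, Finset.mem_univ _, rfl⟩
    · intro h _
      unfold fixF
      rw [← Fintype.card_subtype]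
      refine Fintype.card_congr (Equiv.subtypeEquivRight fun x => ?_)
      rw [MulAction.mem_fixedBy]
      rfl
  rw [sz_eq, ← Finset.sum_filter]
  have h2 : ∑ g ∈ (univ : Finset (Perm V)).filter (fun g => Inv g β), (fixF g).card =
      numO β * Fintype.card (autG β) := by
    rw [← h1, h]
    congr 1
  exact_mod_cast h2

lemma fixF_one : (fixF (1 : Perm V)).card = Fintype.card V := by
  simp [fixF]

lemma fixF_le (g : Perm V) : (fixF g).card ≤ Fintype.card V := Finset.card_le_univ _

lemma fix_lt_numC {g : Perm V} (hg : g ≠ 1) : (fixF g).card + 1 ≤ numC g := by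
  obtain ⟨x, hx⟩ : ∃ x, g x ≠ x := by
    by_contra h
    push Not at h
    exact hg (Equiv.ext h)
  have hxF : x ∉ fixF g := fun h => hx (mem_fixF.1 h)
  rw [← Finset.card_insert_of_notMem hxF]
  unfold numC
  rw [← Finset.card_univ]
  refine Finset.card_le_card_of_injOn (mk g) (fun _ _ => Finset.mem_coe.2 (Finset.mem_univ _)) ?_
  have key : ∀ u ∈ fixF g, ∀ y, mk g u = mk g y → y = u := by
    intro u hu y h
    rw [mk_eq] at h
    obtain ⟨k, hk⟩ := h
    rw [zpow_fix (mem_fixF.1 hu)] at hk
    exact hk.symm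
  intro p hp q hq h
  rw [Finset.mem_coe, Finset.mem_insert] at hp hq
  rcases hp with rfl | hp <;> rcases hq with rfl | hq
  · rfl
  · exact key q hq _ h.symm
  · exact (key p hp _ h).symm
  · exact (key p hp _ h).symm

lemma numC_one : numC (1 : Perm V) = Fintype.card V := by
  unfold numC
  refine (Fintype.card_of_bijective (f := mk (1 : Perm V)) ⟨?_, ?_⟩).symm
  · intro x y h
    rw [mk_eq] at h
    obtain ⟨k, hk⟩ := h
    simpa using hk
  · intro q
    exact ⟨rep 1 q, mk_rep 1 q⟩

lemma sz_one_of_numO {β : SimpleGraph V} (h : Fintype.card V ≤ numO β) :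
    sz (X := SimpleGraph V) (S := Perm V) Inv β = 1 := by
  have hinj : Function.Injective (oc β) := by
    have hsurj : Function.Surjective (oc β) := Quotient.mk_surjective
    have hle : Fintype.card (Orb β) ≤ Fintype.card V := Fintype.card_le_of_surjective _ hsurj
    have heq : Fintype.card V = Fintype.card (Orb β) := le_antisymm h hle
    exact ((Fintype.bijective_iff_surjective_and_card (oc β)).2 ⟨hsurj, heq⟩).1
  unfold sz
  have : (univ.filter fun σ : Perm V => Inv σ β) = {1} := by
    ext σ
    simp only [Finset.mem_filter, Finset.mem_univ, true_and, Finset.mem_singleton]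
    constructor
    · intro hσ
      ext x
      exact hinj (oc_apply hσ x)
    · rintro rfl
      exact Inv_one β
  rw [this]
  simp

/-- average of the potential at a random automorphism -/
noncomputable def avgPsi (a : ℝ) (r0 : ℕ) (β : SimpleGraph V) : ℝ :=
  (∑ g : Perm V, if Inv g β then Psi a r0 (fixF g).card else 0) /
    sz (X := SimpleGraph V) (S := Perm V) Inv β

lemma avgPsi_ge {a : ℝ} {r0 : ℕ} (ha : 1 ≤ a) (β : SimpleGraph V) (j : ℕ) :
    Psi a r0 j + slope a r0 j * ((numO β : ℝ) - j) ≤ avgPsi a r0 β := by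
  unfold avgPsi
  have hs := sz_pos (R := (Inv : Perm V → SimpleGraph V → Prop)) Inv_one β
  rw [le_div_iff₀ (by linarith)]
  have h1 : (∑ g : Perm V, if Inv g β then
      (Psi a r0 j + slope a r0 j * (((fixF g).card : ℝ) - j)) else 0) ≤
      ∑ g : Perm V, if Inv g β then Psi a r0 (fixF g).card else 0 := by
    refine Finset.sum_le_sum fun g _ => ?_
    split_ifs
    · exact Psi_tangent ha _ _
    · exact le_refl _
  have h2 : (∑ g : Perm V, if Inv g β then
      (Psi a r0 j + slope a r0 j * (((fixF g).card : ℝ) - j)) else 0) =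
      (∑ g : Perm V, if Inv g β then (Psi a r0 j - slope a r0 j * j) else 0) +
      slope a r0 j * ∑ g : Perm V, if Inv g β then ((fixF g).card : ℝ) else 0 := by
    rw [Finset.mul_sum, ← Finset.sum_add_distrib]
    refine Finset.sum_congr rfl fun g _ => ?_
    split_ifs <;> ring
  rw [h2, burnside, sum_R_const (R := (Inv : Perm V → SimpleGraph V → Prop))] at h1
  linarith

lemma avgPsi_nonneg {a : ℝ} {r0 : ℕ} (ha : 1 ≤ a) (β : SimpleGraph V) : 0 ≤ avgPsi a r0 β := by
  unfold avgPsi
  have hs := sz_pos (R := (Inv : Perm V → SimpleGraph V → Prop)) Inv_one β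
  refine div_nonneg (Finset.sum_nonneg fun g _ => ?_) (by linarith)
  split_ifs
  · exact Psi_nonneg ha _
  · exact le_refl _

/-- the Lyapunov function -/
noncomputable def wF (V : Type) [Fintype V] (a : ℝ) (r0 : ℕ) (g : Perm V) : ℝ :=
  4 / 3 * (Psi a r0 (Fintype.card V) - Psi a r0 (fixF g).card)

lemma wb_wF (a : ℝ) (r0 : ℕ) (β : SimpleGraph V) :
    wb (Inv : Perm V → SimpleGraph V → Prop) (wF V a r0) β =
      4 / 3 * (Psi a r0 (Fintype.card V) - avgPsi a r0 β) := by
  unfold wb avgPsi wF
  have hs := sz_pos (R := (Inv : Perm V → SimpleGraph V → Prop)) Inv_one β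
  have hs' : sz (Inv : Perm V → SimpleGraph V → Prop) β ≠ 0 := by linarith
  have h1 : (∑ g : Perm V, if Inv g β then
      4 / 3 * (Psi a r0 (Fintype.card V) - Psi a r0 (fixF g).card) else 0) =
      (∑ g : Perm V, if Inv g β then 4 / 3 * Psi a r0 (Fintype.card V) else 0) -
      4 / 3 * ∑ g : Perm V, if Inv g β then Psi a r0 (fixF g).card else 0 := by
    rw [Finset.mul_sum, ← Finset.sum_sub_distrib]
    refine Finset.sum_congr rfl fun g _ => ?_
    split_ifs <;> ring
  rw [h1, sum_R_const (R := (Inv : Perm V → SimpleGraph V → Prop))]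
  field_simp

/-- the drift condition in terms of the average of the potential -/
lemma drift_of_avg {a : ℝ} {r0 : ℕ} {g : Perm V}
    (h : (Psi a r0 (fixF g).card + 3 / 4) * (FixS g).card ≤ ∑ β ∈ FixS g, avgPsi a r0 β) :
    (∑ β : SimpleGraph V, if Inv g β then
      wb (Inv : Perm V → SimpleGraph V → Prop) (wF V a r0) β else 0) ≤
      fx (Inv : Perm V → SimpleGraph V → Prop) g * (wF V a r0 g - 1) := by
  rw [← Finset.sum_filter]
  change ∑ β ∈ FixS g, wb (Inv : Perm V → SimpleGraph V → Prop) (wF V a r0) β ≤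
    ((FixS g).card : ℝ) * (wF V a r0 g - 1)
  simp only [wb_wF]
  rw [← Finset.mul_sum, Finset.sum_sub_distrib, Finset.sum_const, nsmul_eq_mul]
  unfold wF
  nlinarith

end graph

/-- The main drift estimate. -/
theorem drift : ∃ (a : ℝ) (r0 n0 : ℕ), 1 ≤ a ∧ ∀ (V : Type) [Fintype V], n0 ≤ Fintype.card V →
    ∀ g : Perm V, g ≠ 1 →
      (∑ β : SimpleGraph V, if Inv g β then
        wb (Inv : Perm V → SimpleGraph V → Prop) (wF V a r0) β else 0) ≤
      fx (Inv : Perm V → SimpleGraph V → Prop) g * (wF V a r0 g - 1) := by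
  obtain ⟨r1, hr1⟩ := caseA (1 / 4) (by norm_num)
  obtain ⟨p0, n0, hp0, hB⟩ := caseB r1
  set a := 2 / p0 + 2 with ha
  have ha2 : 2 ≤ a := by rw [ha]; have : 0 < 2 / p0 := by positivity
                         linarith
  have ha1 : 1 ≤ a := by linarith
  refine ⟨a, r1, n0, ha1, fun V _ hn g hg => drift_of_avg ?_⟩
  set f := (fixF g).card with hf
  have hfr := fix_lt_numC hg
  rw [← hf] at hfr
  rcases lt_or_ge (numC g) r1 with hlt | hge
  · -- few cycles
    have hb := hB V g hlt hn (by omega)
    have h1 : ((FixS g).filter (fun β => f + 1 ≤ numO β)).card * Psi a r1 (f + 1) ≤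
        ∑ β ∈ FixS g, avgPsi a r1 β := by
      calc ((FixS g).filter (fun β => f + 1 ≤ numO β)).card * Psi a r1 (f + 1)
          = ∑ _β ∈ (FixS g).filter (fun β => f + 1 ≤ numO β), Psi a r1 (f + 1) := by
            rw [Finset.sum_const, nsmul_eq_mul]
        _ ≤ ∑ β ∈ (FixS g).filter (fun β => f + 1 ≤ numO β), avgPsi a r1 β := by
            refine Finset.sum_le_sum fun β hβ => ?_
            rw [Finset.mem_filter] at hβ
            have h2 := avgPsi_ge (r0 := r1) ha1 β (f + 1)
            have h3 : ((f + 1 : ℕ) : ℝ) ≤ numO β := by exact_mod_cast hβ.2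
            have h4 : 0 ≤ slope a r1 (f + 1) * ((numO β : ℝ) - ((f + 1 : ℕ) : ℝ)) :=
              mul_nonneg (slope_nonneg ha1 _) (by linarith)
            linarith
        _ ≤ ∑ β ∈ FixS g, avgPsi a r1 β :=
            Finset.sum_le_sum_of_subset_of_nonneg (Finset.filter_subset _ _)
              fun β _ _ => avgPsi_nonneg ha1 β
    rw [Psi_small (by omega : f ≤ r1)]
    rw [Psi_small (by omega : f + 1 ≤ r1)] at h1
    refine le_trans ?_ h1
    have hF : (0 : ℝ) ≤ (FixS g).card := Nat.cast_nonneg _
    have haf : 1 ≤ a ^ f := one_le_pow₀ ha1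
    have h5 : 2 ≤ p0 * a := by
      rw [ha]
      have : p0 * (2 / p0 + 2) = 2 + 2 * p0 := by field_simp
      rw [this]; linarith
    calc (a ^ f + 3 / 4) * ((FixS g).card : ℝ) ≤ (2 * a ^ f) * (FixS g).card := by
          refine mul_le_mul_of_nonneg_right ?_ hF
          linarith
      _ ≤ ((p0 * a) * a ^ f) * (FixS g).card := by gcongr
      _ = (p0 * (FixS g).card) * a ^ (f + 1) := by ring
      _ ≤ _ := by gcongr
  · -- many cycles
    have hA := hr1 V g hge
    set bad := (FixS g).filter (fun β => numO β < numC g) with hbad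
    have hsum : ((numC g : ℝ) - 1 / 4) * (FixS g).card ≤ ∑ β ∈ FixS g, (numO β : ℝ) := by
      have h1 : ((numC g : ℝ)) * ((FixS g).filter (fun β => ¬ numO β < numC g)).card ≤
          ∑ β ∈ FixS g, (numO β : ℝ) := by
        calc ((numC g : ℝ)) * ((FixS g).filter (fun β => ¬ numO β < numC g)).card
            = ∑ _β ∈ (FixS g).filter (fun β => ¬ numO β < numC g), (numC g : ℝ) := by
              rw [Finset.sum_const, nsmul_eq_mul, mul_comm]
          _ ≤ ∑ β ∈ (FixS g).filter (fun β => ¬ numO β < numC g), (numO β : ℝ) := by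
              refine Finset.sum_le_sum fun β hβ => ?_
              rw [Finset.mem_filter, not_lt] at hβ
              exact_mod_cast hβ.2
          _ ≤ _ := Finset.sum_le_sum_of_subset_of_nonneg (Finset.filter_subset _ _)
              fun β _ _ => Nat.cast_nonneg _
      have h2 : (bad.card : ℝ) + ((FixS g).filter (fun β => ¬ numO β < numC g)).card =
          (FixS g).card := by
        exact_mod_cast Finset.card_filter_add_card_filter_not (s := FixS g)
          (fun β => numO β < numC g)
      have h3 : (0 : ℝ) ≤ bad.card := Nat.cast_nonneg _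
      have h4 : ((FixS g).filter (fun β => ¬ numO β < numC g)).card =
          ((FixS g).card : ℝ) - bad.card := by linarith
      rw [h4] at h1
      nlinarith
    have h5 : ∑ β ∈ FixS g, (Psi a r1 f + slope a r1 f * ((numO β : ℝ) - f)) ≤
        ∑ β ∈ FixS g, avgPsi a r1 β := Finset.sum_le_sum fun β _ => avgPsi_ge ha1 β f
    refine le_trans ?_ h5
    rw [Finset.sum_add_distrib, Finset.sum_const, nsmul_eq_mul, ← Finset.mul_sum,
      Finset.sum_sub_distrib, Finset.sum_const, nsmul_eq_mul]
    have hs1 : 1 ≤ slope a r1 f := by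
      unfold slope
      have : 1 ≤ a ^ (min f r1) := one_le_pow₀ ha1
      nlinarith
    have h6 : (f : ℝ) + 1 ≤ numC g := by exact_mod_cast hfr
    have hF : (0 : ℝ) ≤ (FixS g).card := Nat.cast_nonneg _
    have h7 : 3 / 4 * ((FixS g).card : ℝ) ≤ ∑ β ∈ FixS g, (numO β : ℝ) - (FixS g).card * f := by
      nlinarith
    have h8 : 0 ≤ ∑ β ∈ FixS g, (numO β : ℝ) - (FixS g).card * f := by
      have : 0 ≤ 3 / 4 * ((FixS g).card : ℝ) := by positivity
      linarith
    nlinarith

end Pool.Agent.Lib_helper99.Burnside
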