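import Pool.Agent.Lib_helper99.Burnside.Merge

set_option autoImplicit false
set_option linter.unusedSectionVars false

open Finset Equiv

namespace Pool.Agent.Lib_helper99.Burnside

open scoped Classical

variable {V : Type*} [Fintype V]

/-- graphs in which all cycles of `S` have the same degree -/
noncomputable def Edeg (g : Perm V) (S : Finset (Cyc g)) : Finset (SimpleGraph V) :=
  (FixS g).filter (fun β => ∀ q ∈ S, ∀ q' ∈ S, nb β (rep g q) univ = nb β (rep g q') univ)

lemma A2_key (g : Perm V) (S : Finset (Cyc g)) (q0 : Cyc g) (hq0 : q0 ∈ S) (β : SimpleGraph V)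
    (hβ : Inv g β) :
    (((S.erase q0) ×ˢ (univ \ S)).powerset.filter
      (fun s => symmDiff β (mask g s) ∈ Edeg g S)).card ≤
      ((univ \ S).card.choose ((univ \ S).card / 2)) ^ (S.card - 1) := by
  set T := univ \ S with hT
  set W := (S.erase q0) ×ˢ T with hW
  have hrow : ∀ s ⊆ W, ∀ q ∈ S.erase q0, ∀ y : V, ((mask g s).Adj (rep g q) y ↔
      ∃ t ∈ T.filter (fun t => (q, t) ∈ s), y ∈ Yo g (rep g q) (rep g t)) := by
    intro s hs q hq y
    constructor
    · rintro ⟨⟨q', t'⟩, hw, hpo⟩
      have hmem := hs hw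
      rw [hW, Finset.mem_product] at hmem
      simp only at hpo hmem
      rcases mk_of_po hpo with ⟨h1, _⟩ | ⟨h1, _⟩
      · rw [mk_rep, mk_rep] at h1
        subst h1
        exact ⟨t', by rw [Finset.mem_filter]; exact ⟨hmem.2, hw⟩, mem_Yo.2 hpo⟩
      · rw [mk_rep, mk_rep] at h1
        exfalso
        have h2 := hmem.2
        rw [hT, Finset.mem_sdiff, ← h1] at h2
        exact h2.2 (Finset.mem_of_mem_erase hq)
    · rintro ⟨t, ht, hy⟩
      rw [Finset.mem_filter] at ht
      exact ⟨(q, t), ht.2, mem_Yo.1 hy⟩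
  have hrow0 : ∀ s ⊆ W, ∀ y : V, ¬ (mask g s).Adj (rep g q0) y := by
    rintro s hs y ⟨⟨q', t'⟩, hw, hpo⟩
    have hmem := hs hw
    rw [hW, Finset.mem_product] at hmem
    simp only at hpo hmem
    rcases mk_of_po hpo with ⟨h1, _⟩ | ⟨h1, _⟩
    · rw [mk_rep, mk_rep] at h1
      exact (Finset.mem_erase.1 hmem.1).1 h1.symm
    · rw [mk_rep, mk_rep] at h1
      have h2 := hmem.2
      rw [hT, Finset.mem_sdiff, ← h1] at h2
      exact h2.2 hq0
  set c0 := nb β (rep g q0) univ with hc0
  -- the target of the injection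
  set Fam : Cyc g → Finset (Finset (Cyc g)) := fun q => T.powerset.filter
    (fun u => nb (symmDiff β (mask g (u.map ⟨fun t => (q, t), fun a b h => by simpa using h⟩)))
      (rep g q) univ = c0) with hFam
  have hFamcard : ∀ q ∈ S.erase q0, (Fam q).card ≤ T.card.choose (T.card / 2) := by
    intro q hq
    rw [hFam]
    have hqS := Finset.mem_of_mem_erase hq
    refine row_bound g β hβ (rep g q) univ T (rep g) ?_ (fun _ _ => Finset.subset_univ _) ?_
      (fun u => mask g (u.map ⟨fun t => (q, t), fun a b h => by simpa using h⟩)) ?_ c0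
    · intro t ht h
      rw [hT, Finset.mem_sdiff, ← rep_inj h] at ht
      exact ht.2 hqS
    · intro t ht t' ht' y hy hy'
      rw [mem_Yo] at hy hy'
      have key : ∀ u ∈ T, (po g (rep g q) (rep g u)).Adj (rep g q) y → mk g y = u := by
        intro u hu h
        rcases mk_of_po h with ⟨_, h2⟩ | ⟨h1, _⟩
        · rw [h2, mk_rep]
        · rw [mk_rep, mk_rep] at h1
          rw [hT, Finset.mem_sdiff, ← h1] at hu
          exact absurd hqS hu.2
      rw [← key t ht hy, ← key t' ht' hy']
    · intro u hu y _
      have hsub : u.map ⟨fun t => (q, t), fun a b h => by simpa using h⟩ ⊆ W := by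
        intro w hw
        rw [Finset.mem_map] at hw
        obtain ⟨t, ht, rfl⟩ := hw
        rw [hW, Finset.mem_product]
        exact ⟨hq, hu ht⟩
      rw [hrow _ hsub q hq y]
      constructor
      · rintro ⟨t, ht, hy⟩
        rw [Finset.mem_filter, Finset.mem_map] at ht
        obtain ⟨_, t', ht', he⟩ := ht
        simp only [Function.Embedding.coeFn_mk, Prod.mk.injEq, true_and] at he
        subst he
        exact ⟨t', ht', hy⟩
      · rintro ⟨t, ht, hy⟩
        refine ⟨t, ?_, hy⟩
        rw [Finset.mem_filter, Finset.mem_map]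
        exact ⟨hu ht, t, ht, rfl⟩
  calc (W.powerset.filter (fun s => symmDiff β (mask g s) ∈ Edeg g S)).card
      ≤ ((S.erase q0).pi Fam).card := by
        refine Finset.card_le_card_of_injOn
          (fun s q _ => T.filter (fun t => (q, t) ∈ s)) ?_ ?_
        · intro s hs
          simp only [Finset.coe_filter, Finset.mem_powerset, Set.mem_ofPred_eq] at hs
          rw [Finset.mem_coe, Finset.mem_pi]
          intro q hq
          rw [hFam, Finset.mem_filter, Finset.mem_powerset]
          refine ⟨Finset.filter_subset _ _, ?_⟩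
          have hE := (Finset.mem_filter.1 hs.2).2 q (Finset.mem_of_mem_erase hq) q0 hq0
          have h0 : nb (symmDiff β (mask g s)) (rep g q0) univ = c0 := by
            rw [hc0]
            refine nb_congr fun y _ => ?_
            rw [symmDiff_adj, iff_false_right (hrow0 s hs.1 y)]
            exact not_not
          rw [h0] at hE
          rw [← hE]
          refine nb_congr fun y _ => ?_
          rw [symmDiff_adj, symmDiff_adj, hrow s hs.1 q hq y]
          have hsub : (T.filter (fun t => (q, t) ∈ s)).map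
              ⟨fun t => (q, t), fun a b h => by simpa using h⟩ ⊆ W := by
            intro w hw
            rw [Finset.mem_map] at hw
            obtain ⟨t, ht, rfl⟩ := hw
            exact hs.1 (Finset.mem_filter.1 ht).2
          rw [hrow _ hsub q hq y]
          have : T.filter (fun t => (q, t) ∈ (T.filter (fun t => (q, t) ∈ s)).map
              ⟨fun t => (q, t), fun a b h => by simpa using h⟩) = T.filter (fun t => (q, t) ∈ s) := by
            ext t
            simp
          rw [this]
        · intro s hs s' hs' h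
          simp only [Finset.coe_filter, Finset.mem_powerset, Set.mem_ofPred_eq] at hs hs'
          ext ⟨q, t⟩
          by_cases hmem : (q, t) ∈ W
          · rw [hW, Finset.mem_product] at hmem
            have h1 := congrFun (congrFun h q) hmem.1
            simp only at h1
            have h2 := Finset.ext_iff.1 h1 t
            rw [Finset.mem_filter, Finset.mem_filter] at h2
            constructor
            · intro h3; exact (h2.1 ⟨hmem.2, h3⟩).2
            · intro h3; exact (h2.2 ⟨hmem.2, h3⟩).2
          · constructor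
            · intro h3; exact absurd (hs.1 h3) hmem
            · intro h3; exact absurd (hs'.1 h3) hmem
    _ = ∏ q ∈ S.erase q0, (Fam q).card := Finset.card_pi _ _
    _ ≤ ∏ _q ∈ S.erase q0, T.card.choose (T.card / 2) := Finset.prod_le_prod' hFamcard
    _ = _ := by rw [Finset.prod_const, Finset.card_erase_of_mem hq0]

lemma A2_bound (g : Perm V) (S : Finset (Cyc g)) (hS : S.Nonempty) {δ : ℝ} (hδ : 0 ≤ δ)
    (h : (((univ \ S).card.choose ((univ \ S).card / 2) : ℕ) : ℝ) ≤ δ * 2 ^ (univ \ S).card) :
    ((Edeg g S).card : ℝ) ≤ δ ^ (S.card - 1) * (FixS g).card := by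
  obtain ⟨q0, hq0⟩ := hS
  have h1 := dc g ((S.erase q0) ×ˢ (univ \ S)) (mask g) (fun s _ => Inv_mask g s) (Edeg g S)
    (Finset.filter_subset _ _) (((univ \ S).card.choose ((univ \ S).card / 2)) ^ (S.card - 1))
    (fun β hβ => A2_key g S q0 hq0 β (mem_FixS.1 hβ))
  rw [Finset.card_product, Finset.card_erase_of_mem hq0] at h1
  have h2 : (2 : ℝ) ^ ((S.card - 1) * (univ \ S).card) * (Edeg g S).card ≤
      (((univ \ S).card.choose ((univ \ S).card / 2) : ℕ) : ℝ) ^ (S.card - 1) * (FixS g).card := by
    exact_mod_cast h1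
  have h3 : (((univ \ S).card.choose ((univ \ S).card / 2) : ℕ) : ℝ) ^ (S.card - 1) ≤
      (δ * 2 ^ (univ \ S).card) ^ (S.card - 1) := pow_le_pow_left₀ (Nat.cast_nonneg _) h _
  have h4 : (δ * 2 ^ (univ \ S).card) ^ (S.card - 1) =
      2 ^ ((S.card - 1) * (univ \ S).card) * δ ^ (S.card - 1) := by
    rw [mul_pow, ← pow_mul, mul_comm (univ \ S).card]; ring
  rw [h4] at h3
  have h5 : (2 : ℝ) ^ ((S.card - 1) * (univ \ S).card) * (Edeg g S).card ≤
      2 ^ ((S.card - 1) * (univ \ S).card) * (δ ^ (S.card - 1) * (FixS g).card) := by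
    calc _ ≤ _ := h2
      _ ≤ (2 ^ ((S.card - 1) * (univ \ S).card) * δ ^ (S.card - 1)) * (FixS g).card := by
        gcongr
      _ = _ := by ring
  exact le_of_mul_le_mul_left h5 (by positivity)

/-- graphs with few orbits -/
lemma bad2_bound (g : Perm V) (p1 : ℕ) (hr : p1 ≤ numC g) (hp1 : 2 ≤ p1) {δ : ℝ} (hδ : 0 < δ)
    (h : ∀ m, numC g / 2 ≤ m → ((m.choose (m / 2) : ℕ) : ℝ) ≤ δ * 2 ^ m) :
    (((FixS g).filter (fun β => numO β < p1)).card : ℝ) ≤
      2 ^ numC g * δ ^ (numC g / p1 - 1) * (FixS g).card := by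
  set r := numC g with hrdef
  set k := r / p1 with hk
  have hk1 : 1 ≤ k := (Nat.one_le_div_iff (by omega)).2 hr
  have hk2 : k ≤ r / 2 := Nat.div_le_div_left hp1 (by norm_num)
  have hcover : (FixS g).filter (fun β => numO β < p1) ⊆
      ((univ : Finset (Finset (Cyc g))).filter (fun S => S.card = k)).biUnion (Edeg g) := by
    intro β hβ
    rw [Finset.mem_filter, mem_FixS] at hβ
    obtain ⟨hβ, hlt⟩ := hβ
    have hne : (univ : Finset (Orb β)).Nonempty := by
      have : 0 < Fintype.card (Cyc g) := by
        have : 0 < r := by omega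
        exact this
      obtain ⟨q⟩ := Fintype.card_pos_iff.1 this
      exact ⟨oc β (rep g q), Finset.mem_univ _⟩
    have hcard : (univ : Finset (Orb β)).card * k ≤ (univ : Finset (Cyc g)).card := by
      rw [Finset.card_univ, Finset.card_univ]
      have h1 : Fintype.card (Orb β) ≤ p1 := hlt.le
      calc Fintype.card (Orb β) * k ≤ p1 * k := Nat.mul_le_mul_right _ h1
        _ ≤ r := Nat.mul_div_le r p1
    obtain ⟨o, _, ho⟩ := Finset.exists_le_card_fiber_of_mul_le_card_of_maps_to
      (f := fun q : Cyc g => oc β (rep g q)) (fun q _ => Finset.mem_univ _) hne hcard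
    obtain ⟨S, hS, hSk⟩ := Finset.exists_subset_card_eq ho
    rw [Finset.mem_biUnion]
    refine ⟨S, by simp [hSk], ?_⟩
    unfold Edeg
    rw [Finset.mem_filter]
    refine ⟨mem_FixS.2 hβ, fun q hq q' hq' => ?_⟩
    refine nb_orb ?_ univ (fun _ _ _ => by simp)
    have h1 := (Finset.mem_filter.1 (hS hq)).2
    have h2 := (Finset.mem_filter.1 (hS hq')).2
    rw [h1, h2]
  calc (((FixS g).filter (fun β => numO β < p1)).card : ℝ)
      ≤ ((((univ : Finset (Finset (Cyc g))).filter (fun S => S.card = k)).biUnion (Edeg g)).card : ℝ) := by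
        exact_mod_cast Finset.card_le_card hcover
    _ ≤ ∑ S ∈ (univ : Finset (Finset (Cyc g))).filter (fun S => S.card = k), ((Edeg g S).card : ℝ) := by
        exact_mod_cast Finset.card_biUnion_le
    _ ≤ ∑ _S ∈ (univ : Finset (Finset (Cyc g))).filter (fun S => S.card = k),
          δ ^ (k - 1) * ((FixS g).card : ℝ) := by
        refine Finset.sum_le_sum fun S hS => ?_
        rw [Finset.mem_filter] at hS
        have hSne : S.Nonempty := by
          rw [← Finset.card_pos]; omega
        have h2 := A2_bound g S hSne hδ.le (h _ ?_)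
        · rw [hS.2] at h2; exact h2
        · rw [Finset.card_sdiff_of_subset (Finset.subset_univ _), hS.2, Finset.card_univ]
          change r / 2 ≤ r - k
          omega
    _ ≤ 2 ^ r * (δ ^ (k - 1) * ((FixS g).card : ℝ)) := by
        rw [Finset.sum_const, nsmul_eq_mul]
        refine mul_le_mul_of_nonneg_right ?_ (by positivity)
        have h3 : ((univ : Finset (Finset (Cyc g))).filter (fun S => S.card = k)).card ≤ 2 ^ r := by
          calc _ ≤ (univ : Finset (Finset (Cyc g))).card := Finset.card_filter_le _ _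
            _ = 2 ^ r := by rw [Finset.card_univ, Fintype.card_finset]; rfl
        exact_mod_cast h3
    _ = _ := by ring

end Pool.Agent.Lib_helper99.Burnside
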