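import Mathlib

set_option autoImplicit false
set_option linter.unusedSectionVars false

open Finset

namespace Pool.Agent.Lib_helper99.Burnside

/-- Littlewood-Offord bound via Sperner's theorem -/
lemma lo_bound {T : Type*} [Fintype T] [DecidableEq T] (b : T → ℕ) (hb : ∀ t, 0 < b t)
    (A : Finset T) (c : ℕ) :
    ((univ : Finset (Finset T)).filter (fun s => ∑ t ∈ symmDiff s A, b t = c)).card ≤
      (Fintype.card T).choose (Fintype.card T / 2) := by
  classical
  set F := (univ : Finset (Finset T)).filter (fun s => ∑ t ∈ symmDiff s A, b t = c) with hF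
  have hinj : Set.InjOn (fun s : Finset T => symmDiff s A) (F : Set (Finset T)) := by
    intro s _ s' _ h
    exact symmDiff_left_injective A h
  rw [← Finset.card_image_of_injOn hinj]
  apply IsAntichain.sperner
  intro s hs s' hs' hne hsub
  simp only [Finset.coe_image, Set.mem_image, Finset.mem_coe] at hs hs'
  obtain ⟨u, hu, rfl⟩ := hs
  obtain ⟨u', hu', rfl⟩ := hs'
  rw [hF, Finset.mem_filter] at hu hu'
  apply hne
  by_contra hne'
  have hss : symmDiff u A ⊂ symmDiff u' A := lt_of_le_of_ne hsub hne'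
  have : ∑ t ∈ symmDiff u A, b t < ∑ t ∈ symmDiff u' A, b t := by
    obtain ⟨x, hx, hx'⟩ := Finset.exists_of_ssubset hss
    exact Finset.sum_lt_sum_of_subset hsub hx hx' (hb x) fun _ _ _ => Nat.zero_le _
  rw [hu.2, hu'.2] at this
  exact lt_irrefl _ this

lemma centralBinom_sq (k : ℕ) : k.centralBinom ^ 2 * (2 * k + 1) ≤ 16 ^ k := by
  induction k with
  | zero => simp
  | succ k ih =>
    have h := Nat.succ_mul_centralBinom_succ k
    have h1 : (k + 1) ^ 2 * ((k + 1).centralBinom ^ 2 * (2 * (k + 1) + 1)) =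
        4 * (2 * k + 1) * (2 * k + 3) * (k.centralBinom ^ 2 * (2 * k + 1)) := by
      calc (k + 1) ^ 2 * ((k + 1).centralBinom ^ 2 * (2 * (k + 1) + 1))
          = ((k + 1) * (k + 1).centralBinom) ^ 2 * (2 * k + 3) := by ring
        _ = (2 * (2 * k + 1) * k.centralBinom) ^ 2 * (2 * k + 3) := by rw [h]
        _ = _ := by ring
    have h2 : (k + 1) ^ 2 * ((k + 1).centralBinom ^ 2 * (2 * (k + 1) + 1)) ≤
        (k + 1) ^ 2 * 16 ^ (k + 1) := by
      rw [h1]
      calc 4 * (2 * k + 1) * (2 * k + 3) * (k.centralBinom ^ 2 * (2 * k + 1))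
          ≤ 4 * (2 * k + 1) * (2 * k + 3) * 16 ^ k := Nat.mul_le_mul_left _ ih
        _ ≤ ((k + 1) ^ 2 * 16) * 16 ^ k := by
          refine Nat.mul_le_mul_right _ ?_
          nlinarith
        _ = _ := by ring
    exact Nat.le_of_mul_le_mul_left h2 (by positivity)

lemma choose_half_sq (m : ℕ) : (m.choose (m / 2)) ^ 2 * (m + 1) ≤ 4 ^ m := by
  rcases Nat.even_or_odd' m with ⟨k, rfl | rfl⟩
  · have h : 2 * k / 2 = k := by omega
    rw [h, ← Nat.centralBinom_eq_two_mul_choose]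
    calc _ ≤ 16 ^ k := centralBinom_sq k
      _ = _ := by rw [pow_mul]; norm_num
  · have h : (2 * k + 1) / 2 = k := by omega
    rw [h]
    have h1 : 2 * (2 * k + 1).choose k = (k + 1).centralBinom := by
      rw [Nat.centralBinom_eq_two_mul_choose]
      have h2 : 2 * (k + 1) = (2 * k + 1) + 1 := by ring
      rw [h2, Nat.choose_succ_succ' (2 * k + 1) k, Nat.choose_symm_half]
      ring
    have h3 := centralBinom_sq (k + 1)
    rw [← h1] at h3
    have h4 : 4 * (((2 * k + 1).choose k) ^ 2 * (2 * k + 1 + 1)) ≤ 4 * 4 ^ (2 * k + 1) := by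
      calc 4 * (((2 * k + 1).choose k) ^ 2 * (2 * k + 1 + 1))
          ≤ (2 * (2 * k + 1).choose k) ^ 2 * (2 * (k + 1) + 1) := by nlinarith
        _ ≤ 16 ^ (k + 1) := h3
        _ = 4 * 4 ^ (2 * k + 1) := by
          rw [show (16 : ℕ) = 4 ^ 2 by norm_num, ← pow_mul]; ring
    exact Nat.le_of_mul_le_mul_left h4 (by norm_num)

lemma choose_half_small (δ : ℝ) (hδ : 0 < δ) :
    ∃ m0 : ℕ, ∀ m ≥ m0, ((m.choose (m / 2) : ℕ) : ℝ) ≤ δ * 2 ^ m := by
  obtain ⟨m0, hm0⟩ := exists_nat_ge (1 / δ ^ 2)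
  refine ⟨m0, fun m hm => ?_⟩
  have h1 : (((m.choose (m / 2)) : ℕ) : ℝ) ^ 2 * (m + 1) ≤ 4 ^ m := by
    exact_mod_cast choose_half_sq m
  have h2 : 1 ≤ δ ^ 2 * (m + 1) := by
    have h3 : 1 / δ ^ 2 ≤ m + 1 := by
      have : (m0 : ℝ) ≤ m := by exact_mod_cast hm
      linarith
    rw [div_le_iff₀ (by positivity)] at h3
    linarith
  have h3 : (((m.choose (m / 2)) : ℕ) : ℝ) ^ 2 ≤ (δ * 2 ^ m) ^ 2 := by
    have h4 : (δ * 2 ^ m) ^ 2 = δ ^ 2 * 4 ^ m := by
      rw [mul_pow, ← pow_mul, mul_comm m 2, pow_mul]; norm_num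
    rw [h4]
    have h5 : (((m.choose (m / 2)) : ℕ) : ℝ) ^ 2 ≤
        (((m.choose (m / 2)) : ℕ) : ℝ) ^ 2 * (δ ^ 2 * (m + 1)) := by
      have : 0 ≤ (((m.choose (m / 2)) : ℕ) : ℝ) ^ 2 := by positivity
      nlinarith
    calc _ ≤ _ := h5
      _ = δ ^ 2 * ((((m.choose (m / 2)) : ℕ) : ℝ) ^ 2 * (m + 1)) := by ring
      _ ≤ δ ^ 2 * 4 ^ m := by gcongr
  exact (pow_le_pow_iff_left₀ (by positivity) (by positivity) two_ne_zero).1 h3

end Pool.Agent.Lib_helper99.Burnside
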