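import Pool.Agent.Lib_helper99.Burnside.LO

set_option autoImplicit false
set_option linter.unusedSectionVars false

open Finset Equiv

namespace Pool.Agent.Lib_helper99.Burnside

open scoped Classical

variable {V : Type*} [Fintype V]

/-- `β` is invariant under the permutation `g` of the vertices -/
def Inv (g : Perm V) (β : SimpleGraph V) : Prop := ∀ x y, β.Adj (g x) (g y) ↔ β.Adj x y

/-- the automorphism group of a graph -/
def autG (β : SimpleGraph V) : Subgroup (Perm V) where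
  carrier := {g | Inv g β}
  mul_mem' := by
    intro a b ha hb x y
    rw [Perm.mul_apply, Perm.mul_apply]
    exact (ha _ _).trans (hb _ _)
  one_mem' := fun x y => Iff.rfl
  inv_mem' := by
    intro a ha x y
    have := ha (a⁻¹ x) (a⁻¹ y)
    have e : ∀ z, a (a⁻¹ z) = z := fun z => by rw [← Perm.mul_apply, mul_inv_cancel]; rfl
    rw [e, e] at this
    exact this.symm

lemma mem_autG {β : SimpleGraph V} {g : Perm V} : g ∈ autG β ↔ Inv g β := Iff.rfl

lemma Inv.zpow {g : Perm V} {β : SimpleGraph V} (h : Inv g β) (k : ℤ) : Inv (g ^ k) β :=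
  (autG β).zpow_mem h k

/-- graphs fixed by `g` -/
noncomputable def FixS (g : Perm V) : Finset (SimpleGraph V) := univ.filter (Inv g)

lemma mem_FixS {g : Perm V} {β : SimpleGraph V} : β ∈ FixS g ↔ Inv g β := by simp [FixS]

/-- the orbit of the pair `x,y` under `g`, as a graph -/
def po (g : Perm V) (x y : V) : SimpleGraph V where
  Adj a b := a ≠ b ∧ ∃ k : ℤ, ((g ^ k) x = a ∧ (g ^ k) y = b) ∨ ((g ^ k) x = b ∧ (g ^ k) y = a)
  symm := ⟨fun a b h => ⟨h.1.symm, by
    obtain ⟨k, hk⟩ := h.2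
    exact ⟨k, hk.symm⟩⟩⟩
  loopless := ⟨fun a h => h.1 rfl⟩

lemma po_self (g : Perm V) {x y : V} (h : x ≠ y) : (po g x y).Adj x y :=
  ⟨h, 0, Or.inl ⟨by simp, by simp⟩⟩

lemma Inv_po (g : Perm V) (x y : V) : Inv g (po g x y) := by
  intro a b
  constructor
  · rintro ⟨h, k, hk⟩
    refine ⟨fun h' => h (by rw [h']), k - 1, ?_⟩
    have e : ∀ z, (g ^ (k - 1)) z = g⁻¹ ((g ^ k) z) := by
      intro z
      rw [← Perm.mul_apply]
      congr 1
      rw [sub_eq_neg_add, zpow_add, zpow_neg_one]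
    rcases hk with ⟨h1, h2⟩ | ⟨h1, h2⟩
    · left; rw [e, e, h1, h2]; simp
    · right; rw [e, e, h1, h2]; simp
  · rintro ⟨h, k, hk⟩
    refine ⟨fun h' => h (g.injective h'), k + 1, ?_⟩
    have e : ∀ z, (g ^ (k + 1)) z = g ((g ^ k) z) := by
      intro z
      rw [← Perm.mul_apply]
      congr 1
      rw [add_comm, zpow_add, zpow_one]
    rcases hk with ⟨h1, h2⟩ | ⟨h1, h2⟩
    · left; rw [e, e, h1, h2]; simp
    · right; rw [e, e, h1, h2]; simp

lemma adj_of_po {g : Perm V} {β : SimpleGraph V} (hβ : Inv g β) {x y a b : V}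
    (h : (po g x y).Adj a b) : β.Adj a b ↔ β.Adj x y := by
  obtain ⟨_, k, hk⟩ := h
  rcases hk with ⟨h1, h2⟩ | ⟨h1, h2⟩
  · rw [← h1, ← h2]; exact hβ.zpow k x y
  · rw [← h1, ← h2, β.adj_comm]; exact hβ.zpow k x y

/-- the cycle of a vertex -/
abbrev Cyc (g : Perm V) := Quotient (Perm.SameCycle.setoid g)

/-- the cycle containing `x` -/
def mk (g : Perm V) (x : V) : Cyc g := Quotient.mk _ x

/-- a representative of a cycle -/
noncomputable def rep (g : Perm V) (q : Cyc g) : V := q.out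

lemma mk_rep (g : Perm V) (q : Cyc g) : mk g (rep g q) = q := Quotient.out_eq q

lemma rep_inj {g : Perm V} {q q' : Cyc g} (h : rep g q = rep g q') : q = q' := by
  rw [← mk_rep g q, ← mk_rep g q', h]

lemma mk_eq {g : Perm V} {x y : V} : mk g x = mk g y ↔ g.SameCycle x y :=
  Quotient.eq (r := Perm.SameCycle.setoid g)

lemma mk_zpow (g : Perm V) (k : ℤ) (x : V) : mk g ((g ^ k) x) = mk g x := by
  rw [mk_eq]
  exact ⟨-k, by rw [← Perm.mul_apply]; simp⟩

lemma mk_of_po {g : Perm V} {x y a b : V} (h : (po g x y).Adj a b) :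
    (mk g a = mk g x ∧ mk g b = mk g y) ∨ (mk g a = mk g y ∧ mk g b = mk g x) := by
  obtain ⟨_, k, hk⟩ := h
  rcases hk with ⟨h1, h2⟩ | ⟨h1, h2⟩
  · left; rw [← h1, ← h2, mk_zpow, mk_zpow]; exact ⟨rfl, rfl⟩
  · right; rw [← h1, ← h2, mk_zpow, mk_zpow]; exact ⟨rfl, rfl⟩

lemma symmDiff_adj (β M : SimpleGraph V) (x y : V) :
    (symmDiff β M).Adj x y ↔ ¬ (β.Adj x y ↔ M.Adj x y) := by
  simp only [symmDiff, SimpleGraph.sup_adj, SimpleGraph.sdiff_adj]
  tauto

lemma Inv.symmDiff {g : Perm V} {β M : SimpleGraph V} (h : Inv g β) (h' : Inv g M) :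
    Inv g (symmDiff β M) := by
  intro x y
  rw [symmDiff_adj, symmDiff_adj, h x y, h' x y]

/-- double counting of flips -/
lemma dc {ι : Type*} (g : Perm V) (W : Finset ι) (M : Finset ι → SimpleGraph V)
    (hM : ∀ s ⊆ W, Inv g (M s)) (E : Finset (SimpleGraph V)) (hE : E ⊆ FixS g) (K : ℕ)
    (hK : ∀ β ∈ FixS g, (W.powerset.filter (fun s => symmDiff β (M s) ∈ E)).card ≤ K) :
    2 ^ W.card * E.card ≤ K * (FixS g).card := by
  have h1 : ∀ s ∈ W.powerset, ((FixS g).filter (fun β => symmDiff β (M s) ∈ E)).card = E.card := by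
    intro s hs
    rw [Finset.mem_powerset] at hs
    refine Finset.card_bij (fun β _ => symmDiff β (M s)) ?_ ?_ ?_
    · intro β hβ
      exact (Finset.mem_filter.1 hβ).2
    · intro β _ β' _ h
      exact symmDiff_left_injective _ h
    · intro γ hγ
      refine ⟨symmDiff γ (M s), ?_, by rw [symmDiff_symmDiff_cancel_right]⟩
      rw [Finset.mem_filter, symmDiff_symmDiff_cancel_right]
      refine ⟨mem_FixS.2 ((mem_FixS.1 (hE hγ)).symmDiff (hM s hs)), hγ⟩
  calc 2 ^ W.card * E.card = ∑ s ∈ W.powerset, ((FixS g).filter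
        (fun β => symmDiff β (M s) ∈ E)).card := by
        rw [Finset.sum_congr rfl h1, Finset.sum_const, Finset.card_powerset, smul_eq_mul]
    _ = ∑ β ∈ FixS g, (W.powerset.filter (fun s => symmDiff β (M s) ∈ E)).card := by
        simp only [Finset.card_filter]
        exact Finset.sum_comm
    _ ≤ ∑ _β ∈ FixS g, K := Finset.sum_le_sum hK
    _ = _ := by rw [Finset.sum_const, smul_eq_mul, mul_comm]

/-- number of neighbours of `x` in `U` -/
noncomputable def nb (β : SimpleGraph V) (x : V) (U : Finset V) : ℕ :=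
  (U.filter (fun y => β.Adj x y)).card

lemma nb_congr {β β' : SimpleGraph V} {x : V} {U : Finset V}
    (h : ∀ y ∈ U, (β.Adj x y ↔ β'.Adj x y)) : nb β x U = nb β' x U := by
  unfold nb
  congr 1
  exact Finset.filter_congr h

/-- effect of flips on the number of neighbours -/
lemma nb_flip {ι : Type*} [DecidableEq ι] (β M : SimpleGraph V) (x : V) (U : Finset V) (T s : Finset ι)
    (hs : s ⊆ T) (Y : ι → Finset V) (hYU : ∀ t ∈ T, Y t ⊆ U)
    (hdisj : ∀ t ∈ T, ∀ t' ∈ T, ∀ y, y ∈ Y t → y ∈ Y t' → t = t') (c : ι → Prop)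
    (hc : ∀ t ∈ T, ∀ y ∈ Y t, (β.Adj x y ↔ c t))
    (hM : ∀ y ∈ U, (M.Adj x y ↔ ∃ t ∈ s, y ∈ Y t)) :
    nb (symmDiff β M) x U = nb β x (U \ T.biUnion Y) + ∑ t ∈ symmDiff s (T.filter c), (Y t).card := by
  unfold nb
  have h1 : U.filter (fun y => (symmDiff β M).Adj x y) =
      (U \ T.biUnion Y).filter (fun y => β.Adj x y) ∪ (symmDiff s (T.filter c)).biUnion Y := by
    ext y
    simp only [Finset.mem_filter, Finset.mem_union, Finset.mem_sdiff, Finset.mem_biUnion]
    constructor
    · rintro ⟨hy, hadj⟩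
      rw [symmDiff_adj, hM y hy] at hadj
      by_cases hT : ∃ t ∈ T, y ∈ Y t
      · right
        obtain ⟨t, ht, hyt⟩ := hT
        refine ⟨t, ?_, hyt⟩
        rw [hc t ht y hyt] at hadj
        have h2 : (∃ t' ∈ s, y ∈ Y t') ↔ t ∈ s := by
          constructor
          · rintro ⟨t', ht', hyt'⟩
            rwa [hdisj t ht t' (hs ht') y hyt hyt']
          · intro h; exact ⟨t, h, hyt⟩
        rw [h2] at hadj
        rw [Finset.mem_symmDiff, Finset.mem_filter]
        tauto
      · left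
        have h2 : ¬ ∃ t ∈ s, y ∈ Y t := fun ⟨t, ht, hyt⟩ => hT ⟨t, hs ht, hyt⟩
        refine ⟨⟨hy, hT⟩, ?_⟩
        rw [iff_false_right h2] at hadj
        exact not_not.1 hadj
    · rintro (⟨⟨hy, hT⟩, hadj⟩ | ⟨t, ht, hyt⟩)
      · refine ⟨hy, ?_⟩
        rw [symmDiff_adj, hM y hy]
        have h2 : ¬ ∃ t ∈ s, y ∈ Y t := fun ⟨t, ht, hyt⟩ => hT ⟨t, hs ht, hyt⟩
        rw [iff_false_right h2]
        exact not_not.2 hadj
      · have htT : t ∈ T := by
          rw [Finset.mem_symmDiff, Finset.mem_filter] at ht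
          rcases ht with ⟨h, _⟩ | ⟨h, _⟩
          · exact hs h
          · exact h.1
        have hy : y ∈ U := hYU t htT hyt
        refine ⟨hy, ?_⟩
        rw [symmDiff_adj, hM y hy, hc t htT y hyt]
        have h2 : (∃ t' ∈ s, y ∈ Y t') ↔ t ∈ s := by
          constructor
          · rintro ⟨t', ht', hyt'⟩
            rwa [hdisj t htT t' (hs ht') y hyt hyt']
          · intro h; exact ⟨t, h, hyt⟩
        rw [h2]
        rw [Finset.mem_symmDiff, Finset.mem_filter] at ht
        tauto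
  have hsub : symmDiff s (T.filter c) ⊆ T := by
    intro t ht
    rw [Finset.mem_symmDiff, Finset.mem_filter] at ht
    rcases ht with ⟨h, _⟩ | ⟨h, _⟩
    · exact hs h
    · exact h.1
  rw [h1, Finset.card_union_of_disjoint, Finset.card_biUnion]
  · intro t ht t' ht' hne
    show Disjoint (Y t) (Y t')
    rw [Finset.disjoint_left]
    intro y hy hy'
    exact hne (hdisj t (hsub ht) t' (hsub ht') y hy hy')
  · rw [Finset.disjoint_left]
    intro y hy hy'
    rw [Finset.mem_filter, Finset.mem_sdiff] at hy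
    apply hy.1.2
    rw [Finset.mem_biUnion] at hy' ⊢
    obtain ⟨t, ht, hyt⟩ := hy'
    exact ⟨t, hsub ht, hyt⟩

/-- the set of neighbours of `x` in the pair orbit of `x,z` -/
noncomputable def Yo (g : Perm V) (x z : V) : Finset V := univ.filter (fun y => (po g x z).Adj x y)

lemma mem_Yo {g : Perm V} {x z y : V} : y ∈ Yo g x z ↔ (po g x z).Adj x y := by simp [Yo]

lemma Yo_pos {g : Perm V} {x z : V} (h : x ≠ z) : 0 < (Yo g x z).card :=
  Finset.card_pos.2 ⟨z, mem_Yo.2 (po_self g h)⟩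

/-- Sperner bound for the number of flips along a row giving a prescribed number of neighbours -/
lemma row_bound {ι : Type*} [DecidableEq ι] (g : Perm V) (β : SimpleGraph V) (hβ : Inv g β) (x : V) (U : Finset V)
    (T : Finset ι) (z : ι → V) (hz : ∀ t ∈ T, x ≠ z t) (hU : ∀ t ∈ T, Yo g x (z t) ⊆ U)
    (hdisj : ∀ t ∈ T, ∀ t' ∈ T, ∀ y, y ∈ Yo g x (z t) → y ∈ Yo g x (z t') → t = t')
    (M : Finset ι → SimpleGraph V)
    (hM : ∀ s ⊆ T, ∀ y ∈ U, ((M s).Adj x y ↔ ∃ t ∈ s, y ∈ Yo g x (z t))) (c : ℕ) :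
    (T.powerset.filter (fun s => nb (symmDiff β (M s)) x U = c)).card ≤
      T.card.choose (T.card / 2) := by
  have hform : ∀ s ⊆ T, nb (symmDiff β (M s)) x U = nb β x (U \ T.biUnion fun t => Yo g x (z t)) +
      ∑ t ∈ symmDiff s (T.filter fun t => β.Adj x (z t)), (Yo g x (z t)).card := by
    intro s hs
    exact nb_flip β (M s) x U T s hs (fun t => Yo g x (z t)) hU hdisj (fun t => β.Adj x (z t))
      (fun t _ y hy => adj_of_po hβ (mem_Yo.1 hy)) (hM s hs)
  set A0 := T.filter fun t => β.Adj x (z t) with hA0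
  set N0 := nb β x (U \ T.biUnion fun t => Yo g x (z t)) with hN0
  -- transfer to the subtype
  have hlo := lo_bound (T := {t // t ∈ T}) (fun t => (Yo g x (z t.1)).card)
    (fun t => Yo_pos (hz t.1 t.2)) (A0.subtype (fun t => t ∈ T)) (c - N0)
  rw [Fintype.card_coe] at hlo
  refine le_trans ?_ hlo
  refine Finset.card_le_card_of_injOn (fun s => s.subtype (fun t => t ∈ T)) ?_ ?_
  · intro s hs
    simp only [Finset.coe_filter, Finset.mem_powerset, Set.mem_ofPred_eq] at hs
    simp only [Finset.coe_filter, Finset.mem_univ, true_and, Set.mem_ofPred_eq]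
    have h1 := hform s hs.1
    rw [hs.2] at h1
    have h2 : ∑ t ∈ symmDiff (s.subtype (fun t => t ∈ T)) (A0.subtype (fun t => t ∈ T)),
        (Yo g x (z t.1)).card = ∑ t ∈ symmDiff s A0, (Yo g x (z t)).card := by
      have h3 : symmDiff (s.subtype (fun t => t ∈ T)) (A0.subtype (fun t => t ∈ T)) =
          (symmDiff s A0).subtype (fun t => t ∈ T) := by
        ext t
        simp [Finset.mem_symmDiff]
      rw [h3]
      rw [Finset.sum_subtype_of_mem (f := fun t => (Yo g x (z t)).card)]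
      intro t ht
      rw [Finset.mem_symmDiff] at ht
      rcases ht with ⟨h, _⟩ | ⟨h, _⟩
      · exact hs.1 h
      · exact (Finset.mem_filter.1 h).1
    rw [h2]
    omega
  · intro s hs s' hs' h
    simp only [Finset.coe_filter, Finset.mem_powerset, Set.mem_ofPred_eq] at hs hs'
    ext t
    by_cases ht : t ∈ T
    · have := Finset.ext_iff.1 h ⟨t, ht⟩
      simpa using this
    · constructor
      · intro h'; exact absurd (hs.1 h') ht
      · intro h'; exact absurd (hs'.1 h') ht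

end Pool.Agent.Lib_helper99.Burnside
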