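import Pool.Agent.Lib_helper99.Burnside.Masks

set_option autoImplicit false
set_option linter.unusedSectionVars false

open Finset Equiv

namespace Pool.Agent.Lib_helper99.Burnside

open scoped Classical

variable {V : Type*} [Fintype V]

/-- union of pair orbits -/
def mask (g : Perm V) (s : Finset (Cyc g × Cyc g)) : SimpleGraph V where
  Adj a b := ∃ w ∈ s, (po g (rep g w.1) (rep g w.2)).Adj a b
  symm := ⟨fun _ _ ⟨w, hw, h⟩ => ⟨w, hw, h.symm⟩⟩
  loopless := ⟨fun _ ⟨_, _, h⟩ => h.ne rfl⟩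

lemma mask_adj {g : Perm V} {s : Finset (Cyc g × Cyc g)} {a b : V} :
    (mask g s).Adj a b ↔ ∃ w ∈ s, (po g (rep g w.1) (rep g w.2)).Adj a b := Iff.rfl

lemma Inv_mask (g : Perm V) (s : Finset (Cyc g × Cyc g)) : Inv g (mask g s) := by
  intro x y
  rw [mask_adj, mask_adj]
  exact exists_congr fun w => and_congr_right fun _ => Inv_po g _ _ x y

/-- blocks -/
noncomputable def blk {g : Perm V} (φ : Cyc g → Cyc g) (p : Cyc g) : Finset V :=
  univ.filter (fun y => φ (mk g y) = p)

lemma mem_blk {g : Perm V} {φ : Cyc g → Cyc g} {p : Cyc g} {y : V} :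
    y ∈ blk φ p ↔ φ (mk g y) = p := by simp [blk]

/-- graphs for which the partition given by `φ` is equitable -/
noncomputable def Eqt {g : Perm V} (φ : Cyc g → Cyc g) : Finset (SimpleGraph V) :=
  (FixS g).filter (fun β => ∀ q p, φ p = p →
    nb β (rep g q) (blk φ p) = nb β (rep g (φ q)) (blk φ p))

/-- the flips used -/
noncomputable def Wt {g : Perm V} (φ : Cyc g → Cyc g) (lt : Cyc g → Cyc g → Prop) :
    Finset (Cyc g × Cyc g) :=
  univ.filter (fun w => φ w.1 ≠ w.1 ∧ φ w.2 = w.2 ∧ lt (φ w.1) w.2)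

lemma mem_Wt {g : Perm V} {φ : Cyc g → Cyc g} {lt : Cyc g → Cyc g → Prop} {w : Cyc g × Cyc g} :
    w ∈ Wt φ lt ↔ φ w.1 ≠ w.1 ∧ φ w.2 = w.2 ∧ lt (φ w.1) w.2 := by simp [Wt]

lemma A1_key {g : Perm V} (φ : Cyc g → Cyc g) (hφ : ∀ q, φ (φ q) = φ q)
    (lt : Cyc g → Cyc g → Prop) (hlt : ∀ a b, lt a b → ¬ lt b a) (β : SimpleGraph V)
    (hβ : Inv g β) (s t : Finset (Cyc g × Cyc g)) (hs : s ⊆ Wt φ lt) (ht : t ⊆ Wt φ lt)
    (hsE : symmDiff β (mask g s) ∈ Eqt φ) (htE : symmDiff β (mask g t) ∈ Eqt φ)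
    (w : Cyc g × Cyc g) (hws : w ∈ s) (hwt : w ∉ t) : False := by
  obtain ⟨q, p⟩ := w
  obtain ⟨hq, hp, hlt1⟩ := mem_Wt.1 (hs hws)
  simp only at hq hp hlt1
  -- adjacency facts
  have hA : ∀ u ⊆ Wt φ lt, ∀ y ∈ blk φ p, ¬ (mask g u).Adj (rep g (φ q)) y := by
    intro u hu y hy hadj
    rw [mem_blk] at hy
    obtain ⟨⟨q', p'⟩, hw', hpo⟩ := hadj
    obtain ⟨hq', hp', hlt'⟩ := mem_Wt.1 (hu hw')
    simp only at hq' hp' hlt' hpo
    rcases mk_of_po hpo with ⟨h1, _⟩ | ⟨h1, h2⟩
    · rw [mk_rep, mk_rep] at h1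
      apply hq'
      rw [← h1, hφ]
    · rw [mk_rep, mk_rep] at h1
      rw [mk_rep] at h2
      rw [← h2, hy, ← h1] at hlt'
      exact hlt _ _ hlt1 hlt'
  have hB : ∀ u ⊆ Wt φ lt, ∀ y ∈ blk φ p,
      ((mask g u).Adj (rep g q) y ↔ ((q, p) ∈ u ∧ y ∈ Yo g (rep g q) (rep g p))) := by
    intro u hu y hy
    rw [mem_blk] at hy
    constructor
    · rintro ⟨⟨q', p'⟩, hw', hpo⟩
      obtain ⟨hq', hp', hlt'⟩ := mem_Wt.1 (hu hw')
      simp only at hq' hp' hlt' hpo
      rcases mk_of_po hpo with ⟨h1, h2⟩ | ⟨h1, _⟩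
      · rw [mk_rep, mk_rep] at h1
        rw [mk_rep] at h2
        have h3 : p' = p := by rw [← hp', ← h2, hy]
        subst h1
        subst h3
        exact ⟨hw', mem_Yo.2 hpo⟩
      · rw [mk_rep, mk_rep] at h1
        exact absurd (h1 ▸ hp') hq
    · rintro ⟨hw', hy'⟩
      exact ⟨(q, p), hw', mem_Yo.1 hy'⟩
  have hne : rep g q ≠ rep g p := by
    intro h
    have := rep_inj h
    exact hq (this ▸ hp)
  have hYU : Yo g (rep g q) (rep g p) ⊆ blk φ p := by
    intro y hy
    rw [mem_Yo] at hy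
    rw [mem_blk]
    rcases mk_of_po hy with ⟨_, h2⟩ | ⟨h1, _⟩
    · rw [h2, mk_rep, hp]
    · rw [mk_rep, mk_rep] at h1
      exact absurd (h1 ▸ hp) hq
  -- the number of neighbours
  have hform : ∀ u ⊆ Wt φ lt, nb (symmDiff β (mask g u)) (rep g q) (blk φ p) =
      nb β (rep g q) (blk φ p \ ({()} : Finset Unit).biUnion fun _ => Yo g (rep g q) (rep g p)) +
      ∑ _t ∈ symmDiff (if (q, p) ∈ u then ({()} : Finset Unit) else ∅)
        (({()} : Finset Unit).filter fun _ => β.Adj (rep g q) (rep g p)),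
        (Yo g (rep g q) (rep g p)).card := by
    intro u hu
    refine nb_flip β (mask g u) (rep g q) (blk φ p) ({()} : Finset Unit) _ ?_
      (fun _ => Yo g (rep g q) (rep g p)) (fun _ _ => hYU) (fun _ _ _ _ _ _ _ => rfl)
      (fun _ => β.Adj (rep g q) (rep g p)) (fun _ _ y hy => adj_of_po hβ (mem_Yo.1 hy)) ?_
    · split_ifs <;> simp
    · intro y hy
      rw [hB u hu y hy]
      split_ifs with h
      · simp [h]
      · simp [h]
  have hYpos := Yo_pos (g := g) hne
  have e1 : nb (symmDiff β (mask g s)) (rep g q) (blk φ p) =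
      nb (symmDiff β (mask g t)) (rep g q) (blk φ p) := by
    have h1 := (Finset.mem_filter.1 hsE).2 q p hp
    have h2 := (Finset.mem_filter.1 htE).2 q p hp
    have h3 : ∀ u ⊆ Wt φ lt, nb (symmDiff β (mask g u)) (rep g (φ q)) (blk φ p) =
        nb β (rep g (φ q)) (blk φ p) := by
      intro u hu
      refine nb_congr fun y hy => ?_
      rw [symmDiff_adj, iff_false_right (hA u hu y hy)]
      exact not_not
    rw [h1, h2, h3 s hs, h3 t ht]
  rw [hform s hs, hform t ht, if_pos hws, if_neg hwt] at e1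
  by_cases hc : β.Adj (rep g q) (rep g p)
  · rw [Finset.filter_true_of_mem (fun _ _ => hc), symmDiff_self, ← Finset.bot_eq_empty,
      bot_symmDiff, Finset.bot_eq_empty, Finset.sum_empty, Finset.sum_singleton] at e1
    omega
  · rw [Finset.filter_false_of_mem (fun _ _ => hc), symmDiff_self, ← Finset.bot_eq_empty,
      symmDiff_bot, Finset.bot_eq_empty, Finset.sum_empty, Finset.sum_singleton] at e1
    omega

lemma A1_pow {g : Perm V} (φ : Cyc g → Cyc g) (hφ : ∀ q, φ (φ q) = φ q)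
    (lt : Cyc g → Cyc g → Prop) (hlt : ∀ a b, lt a b → ¬ lt b a) :
    2 ^ (Wt φ lt).card * (Eqt φ).card ≤ (FixS g).card := by
  have := dc g (Wt φ lt) (mask g) (fun s _ => Inv_mask g s) (Eqt φ) (Finset.filter_subset _ _) 1 ?_
  · simpa using this
  · intro β hβ
    rw [mem_FixS] at hβ
    rw [Finset.card_le_one]
    intro s hs t ht
    rw [Finset.mem_filter, Finset.mem_powerset] at hs ht
    ext w
    constructor
    · intro hw
      by_contra h
      exact A1_key φ hφ lt hlt β hβ s t hs.1 ht.1 hs.2 ht.2 w hw h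
    · intro hw
      by_contra h
      exact A1_key φ hφ lt hlt β hβ t s ht.1 hs.1 ht.2 hs.2 w hw h

/-- number of flips available -/
lemma Wt_count {g : Perm V} (φ : Cyc g → Cyc g) (hφ : ∀ q, φ (φ q) = φ q) :
    ∃ lt : Cyc g → Cyc g → Prop, (∀ a b, lt a b → ¬ lt b a) ∧
      (univ.filter (fun q => φ q ≠ q)).card * ((univ.filter (fun q => φ q = q)).card - 1) ≤
        2 * (Wt φ lt).card := by
  set idx := Fintype.equivFin (Cyc g) with hidx
  set l1 : Cyc g → Cyc g → Prop := fun a b => idx a < idx b with hl1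
  set l2 : Cyc g → Cyc g → Prop := fun a b => idx b < idx a with hl2
  have h1 : ∀ a b, l1 a b → ¬ l1 b a := fun a b h => not_lt.2 h.le
  have h2 : ∀ a b, l2 a b → ¬ l2 b a := fun a b h => not_lt.2 h.le
  have hsum : (univ.filter (fun q => φ q ≠ q)).card * ((univ.filter (fun q => φ q = q)).card - 1) ≤
      (Wt φ l1).card + (Wt φ l2).card := by
    have h3 : (univ.filter (fun q => φ q ≠ q)).card * ((univ.filter (fun q => φ q = q)).card - 1) =
        ((univ.filter (fun q => φ q ≠ q)).sigma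
          (fun q => (univ.filter (fun p => φ p = p)).erase (φ q))).card := by
      rw [Finset.card_sigma]
      rw [Finset.sum_congr rfl (g := fun _ => (univ.filter (fun q => φ q = q)).card - 1)]
      · rw [Finset.sum_const, smul_eq_mul]
      · intro q _
        rw [Finset.card_erase_of_mem]
        simp [hφ]
    rw [h3]
    have h4 : ((univ.filter (fun q => φ q ≠ q)).sigma
          (fun q => (univ.filter (fun p => φ p = p)).erase (φ q))).card =
        (((univ.filter (fun q => φ q ≠ q)).sigma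
          (fun q => (univ.filter (fun p => φ p = p)).erase (φ q))).image
            (fun x => ((x.1, x.2) : Cyc g × Cyc g))).card := by
      rw [Finset.card_image_of_injective]
      rintro ⟨a, b⟩ ⟨c, d⟩ h
      simp only [Prod.mk.injEq] at h
      obtain ⟨rfl, rfl⟩ := h
      rfl
    rw [h4]
    refine (Finset.card_le_card ?_).trans (Finset.card_union_le _ _)
    intro w hw
    simp only [Finset.mem_image, Finset.mem_sigma, Finset.mem_erase, Finset.mem_filter,
      Finset.mem_univ, true_and] at hw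
    obtain ⟨⟨a, b⟩, ⟨ha, hb, hb'⟩, rfl⟩ := hw
    simp only at ha hb hb'
    rw [Finset.mem_union, mem_Wt, mem_Wt]
    rcases lt_trichotomy (idx (φ a)) (idx b) with h | h | h
    · left; exact ⟨ha, hb', h⟩
    · exact absurd (idx.injective h).symm hb
    · right; exact ⟨ha, hb', h⟩
  rcases le_total (Wt φ l1).card (Wt φ l2).card with h | h
  · exact ⟨l2, h2, by omega⟩
  · exact ⟨l1, h1, by omega⟩

/-- bound for one partition -/
lemma A1_real {g : Perm V} (φ : Cyc g → Cyc g) (hφ : ∀ q, φ (φ q) = φ q) {ρ : ℝ} (hρ0 : 0 < ρ)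
    (hρ : ρ ^ 2 = 1 / 2) :
    ((Eqt φ).card : ℝ) ≤ ρ ^ ((univ.filter (fun q => φ q ≠ q)).card *
      ((univ.filter (fun q => φ q = q)).card - 1)) * (FixS g).card := by
  obtain ⟨lt, hlt, hW⟩ := Wt_count φ hφ
  have h1 : (2 : ℝ) ^ (Wt φ lt).card * (Eqt φ).card ≤ (FixS g).card := by
    exact_mod_cast A1_pow φ hφ lt hlt
  have hρ1 : ρ ≤ 1 := by nlinarith
  have h2 : ((Eqt φ).card : ℝ) ≤ (1 / 2) ^ (Wt φ lt).card * (FixS g).card := by
    rw [one_div, inv_pow, inv_mul_eq_div, le_div_iff₀ (by positivity)]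
    linarith
  refine h2.trans ?_
  rw [← hρ, ← pow_mul]
  exact mul_le_mul_of_nonneg_right (pow_le_pow_of_le_one hρ0.le hρ1 hW) (Nat.cast_nonneg _)

/-- the map attached to a set of representatives -/
noncomputable def phiOf {g : Perm V} (A : Finset (Cyc g)) (ψ : {q // q ∉ A} → {q // q ∈ A})
    (q : Cyc g) : Cyc g := if h : q ∈ A then q else (ψ ⟨q, h⟩ : Cyc g)

lemma phiOf_fix {g : Perm V} (A : Finset (Cyc g)) (ψ : {q // q ∉ A} → {q // q ∈ A})
    (q : Cyc g) : phiOf A ψ q = q ↔ q ∈ A := by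
  unfold phiOf
  constructor
  · intro h
    by_contra hq
    rw [dif_neg hq] at h
    exact hq (h ▸ (ψ ⟨q, hq⟩).2)
  · intro h
    rw [dif_pos h]

lemma phiOf_mem {g : Perm V} (A : Finset (Cyc g)) (ψ : {q // q ∉ A} → {q // q ∈ A})
    (q : Cyc g) : phiOf A ψ q ∈ A := by
  unfold phiOf
  split_ifs with h
  · exact h
  · exact (ψ ⟨q, h⟩).2

lemma phiOf_idem {g : Perm V} (A : Finset (Cyc g)) (ψ : {q // q ∉ A} → {q // q ∈ A})
    (q : Cyc g) : phiOf A ψ (phiOf A ψ q) = phiOf A ψ q :=
  (phiOf_fix A ψ _).2 (phiOf_mem A ψ q)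

/-- the orbit of a vertex under the automorphism group -/
abbrev Orb (β : SimpleGraph V) := Quotient (MulAction.orbitRel (autG β) V)

/-- orbit class -/
def oc (β : SimpleGraph V) (x : V) : Orb β := Quotient.mk _ x

/-- number of orbits of the automorphism group on vertices -/
noncomputable def numO (β : SimpleGraph V) : ℕ := Fintype.card (Orb β)

lemma oc_eq {β : SimpleGraph V} {x y : V} : oc β x = oc β y ↔ ∃ h : Perm V, Inv h β ∧ h y = x := by
  unfold oc
  rw [Quotient.eq (r := MulAction.orbitRel (autG β) V), MulAction.orbitRel_apply,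
    MulAction.mem_orbit_iff]
  constructor
  · rintro ⟨⟨h, hh⟩, he⟩
    exact ⟨h, hh, he⟩
  · rintro ⟨h, hh, he⟩
    exact ⟨⟨h, hh⟩, he⟩

lemma oc_apply {β : SimpleGraph V} {h : Perm V} (hh : Inv h β) (x : V) : oc β (h x) = oc β x :=
  oc_eq.2 ⟨h, hh, rfl⟩

lemma oc_of_mk {g : Perm V} {β : SimpleGraph V} (hβ : Inv g β) {x y : V}
    (h : mk g x = mk g y) : oc β x = oc β y := by
  rw [mk_eq] at h
  obtain ⟨k, hk⟩ := h
  rw [← hk]
  exact (oc_apply (hβ.zpow k) x).symm

lemma nb_orb {β : SimpleGraph V} {x y : V} (hxy : oc β x = oc β y) (U : Finset V)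
    (hU : ∀ h : Perm V, Inv h β → ∀ z, (h z ∈ U ↔ z ∈ U)) : nb β x U = nb β y U := by
  obtain ⟨h, hh, he⟩ := oc_eq.1 hxy
  unfold nb
  symm
  refine Finset.card_bij (fun z _ => h z) ?_ ?_ ?_
  · intro z hz
    rw [Finset.mem_filter] at hz ⊢
    refine ⟨(hU h hh z).2 hz.1, ?_⟩
    rw [← he]
    exact (hh y z).2 hz.2
  · intro a _ b _ hab
    exact h.injective hab
  · intro z hz
    rw [Finset.mem_filter] at hz
    refine ⟨h.symm z, ?_, by simp⟩
    rw [Finset.mem_filter]
    refine ⟨(hU h hh _).1 (by simpa using hz.1), ?_⟩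
    rw [← hh, he]
    simpa using hz.2

/-- canonical cycle of the orbit -/
noncomputable def canon (g : Perm V) (β : SimpleGraph V) (q : Cyc g) : Cyc g :=
  mk g (Quotient.out (oc β (rep g q)))

section canon

variable {g : Perm V} {β : SimpleGraph V} (hβ : Inv g β)
include hβ

lemma oc_rep_mk (x : V) : oc β (rep g (mk g x)) = oc β x :=
  oc_of_mk hβ (mk_rep g (mk g x))

lemma oc_canon (q : Cyc g) : oc β (rep g (canon g β q)) = oc β (rep g q) := by
  unfold canon
  rw [oc_rep_mk hβ]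
  exact Quotient.out_eq _

lemma canon_of_oc {q q' : Cyc g} (h : oc β (rep g q) = oc β (rep g q')) :
    canon g β q = canon g β q' := by
  unfold canon
  rw [h]

lemma canon_idem (q : Cyc g) : canon g β (canon g β q) = canon g β q :=
  canon_of_oc hβ (oc_canon hβ q)

lemma card_canon : (univ.filter (fun q => canon g β q = q)).card = numO β := by
  unfold numO
  rw [← Finset.card_univ]
  refine Finset.card_bij (fun q _ => oc β (rep g q)) (fun _ _ => Finset.mem_univ _) ?_ ?_
  · intro q hq q' hq' h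
    rw [Finset.mem_filter] at hq hq'
    rw [← hq.2, ← hq'.2]
    exact canon_of_oc hβ h
  · intro o _
    refine ⟨mk g (Quotient.out o), ?_, ?_⟩
    · rw [Finset.mem_filter]
      refine ⟨Finset.mem_univ _, ?_⟩
      unfold canon
      rw [oc_rep_mk hβ]
      unfold oc
      rw [Quotient.out_eq]
    · rw [oc_rep_mk hβ]
      exact Quotient.out_eq o

lemma canon_Eqt : β ∈ Eqt (canon g β) := by
  unfold Eqt
  rw [Finset.mem_filter]
  refine ⟨mem_FixS.2 hβ, fun q p _ => ?_⟩
  refine nb_orb (oc_canon hβ q).symm _ fun h hh z => ?_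
  rw [mem_blk, mem_blk]
  have : canon g β (mk g (h z)) = canon g β (mk g z) := by
    refine canon_of_oc hβ ?_
    rw [oc_rep_mk hβ, oc_rep_mk hβ, oc_apply hh]
  rw [this]

end canon

/-- the number of cycles -/
noncomputable def numC (g : Perm V) : ℕ := Fintype.card (Cyc g)

/-- union bound over partitions with many blocks -/
lemma bad1_bound (g : Perm V) {ρ : ℝ} (hρ0 : 0 < ρ) (hρ : ρ ^ 2 = 1 / 2) (p1 : ℕ) :
    (((FixS g).filter (fun β => p1 ≤ numO β ∧ numO β < numC g)).card : ℝ) ≤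
      (∑ p ∈ (range (numC g)).filter (fun p => p1 ≤ p), ((numC g).choose p : ℝ) *
        ((p : ℝ) * ρ ^ (p - 1)) ^ (numC g - p)) * (FixS g).card := by
  set r := numC g with hr
  set PP : Finset (Finset (Cyc g)) := (univ : Finset (Finset (Cyc g))).filter
    (fun A => p1 ≤ A.card ∧ A.card < r) with hPP
  have hcover : (FixS g).filter (fun β => p1 ≤ numO β ∧ numO β < numC g) ⊆
      PP.biUnion (fun A => (univ : Finset ({q // q ∉ A} → {q // q ∈ A})).biUnion
        (fun ψ => Eqt (phiOf A ψ))) := by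
    intro β hβ
    rw [Finset.mem_filter, mem_FixS] at hβ
    obtain ⟨hβ, h1, h2⟩ := hβ
    set A := univ.filter (fun q => canon g β q = q) with hA
    have hcA := card_canon hβ
    have hmem : ∀ q, canon g β q ∈ A := fun q => by
      rw [hA, Finset.mem_filter]; exact ⟨Finset.mem_univ _, canon_idem hβ q⟩
    rw [Finset.mem_biUnion]
    refine ⟨A, ?_, ?_⟩
    · rw [hPP, Finset.mem_filter]
      refine ⟨Finset.mem_univ _, ?_, ?_⟩ <;> rw [hA, hcA] <;> assumption
    · rw [Finset.mem_biUnion]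
      refine ⟨fun q => ⟨canon g β q.1, hmem q.1⟩, Finset.mem_univ _, ?_⟩
      have he : phiOf A (fun q => ⟨canon g β q.1, hmem q.1⟩) = canon g β := by
        funext q
        unfold phiOf
        split_ifs with h
        · rw [hA, Finset.mem_filter] at h
          exact h.2.symm
        · rfl
      rw [he]
      exact canon_Eqt hβ
  have hEq : ∀ A ∈ PP, ∀ ψ : {q // q ∉ A} → {q // q ∈ A}, ((Eqt (phiOf A ψ)).card : ℝ) ≤
      ρ ^ ((r - A.card) * (A.card - 1)) * (FixS g).card := by
    intro A _ ψ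
    have h1 := A1_real (phiOf A ψ) (phiOf_idem A ψ) hρ0 hρ
    have e1 : (univ.filter (fun q => phiOf A ψ q = q)) = A := by
      ext q; simp [phiOf_fix]
    have e2 : (univ.filter (fun q => phiOf A ψ q ≠ q)).card = r - A.card := by
      have : (univ.filter (fun q => phiOf A ψ q ≠ q)) = Aᶜ := by
        ext q; simp [phiOf_fix]
      rw [this, Finset.card_compl]; rfl
    rw [e1, e2] at h1
    exact h1
  calc (((FixS g).filter (fun β => p1 ≤ numO β ∧ numO β < numC g)).card : ℝ)
      ≤ ((PP.biUnion (fun A => (univ : Finset ({q // q ∉ A} → {q // q ∈ A})).biUnion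
        (fun ψ => Eqt (phiOf A ψ)))).card : ℝ) := by exact_mod_cast Finset.card_le_card hcover
    _ ≤ ∑ A ∈ PP, ∑ ψ : ({q // q ∉ A} → {q // q ∈ A}), ((Eqt (phiOf A ψ)).card : ℝ) := by
        have h1 : (PP.biUnion (fun A => (univ : Finset ({q // q ∉ A} → {q // q ∈ A})).biUnion
          (fun ψ => Eqt (phiOf A ψ)))).card ≤
          ∑ A ∈ PP, ∑ ψ : ({q // q ∉ A} → {q // q ∈ A}), (Eqt (phiOf A ψ)).card :=
          Finset.card_biUnion_le.trans (Finset.sum_le_sum fun A _ => Finset.card_biUnion_le)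
        exact_mod_cast h1
    _ ≤ ∑ A ∈ PP, (((A.card : ℝ) * ρ ^ (A.card - 1)) ^ (r - A.card)) * (FixS g).card := by
        refine Finset.sum_le_sum fun A hA => ?_
        calc ∑ ψ : ({q // q ∉ A} → {q // q ∈ A}), ((Eqt (phiOf A ψ)).card : ℝ)
            ≤ ∑ _ψ : ({q // q ∉ A} → {q // q ∈ A}),
              ρ ^ ((r - A.card) * (A.card - 1)) * ((FixS g).card : ℝ) :=
              Finset.sum_le_sum fun ψ _ => hEq A hA ψ
          _ = _ := by
            rw [Finset.sum_const, Finset.card_univ, Fintype.card_fun, nsmul_eq_mul]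
            have e1 : Fintype.card {q // q ∈ A} = A.card := Fintype.card_coe A
            have e2 : Fintype.card {q // q ∉ A} = r - A.card := by
              rw [Fintype.card_subtype_compl, Fintype.card_coe]; rfl
            rw [e1, e2, mul_pow, ← pow_mul]
            push_cast
            rw [mul_comm (A.card - 1) (r - A.card)]
            ring
    _ = (∑ A ∈ PP, (((A.card : ℝ) * ρ ^ (A.card - 1)) ^ (r - A.card))) * (FixS g).card := by
        rw [Finset.sum_mul]
    _ = _ := by
        congr 1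
        have h1 : ∑ A ∈ PP, (((A.card : ℝ) * ρ ^ (A.card - 1)) ^ (r - A.card)) =
            ∑ A ∈ (univ : Finset (Cyc g)).powerset, (fun p : ℕ => if p1 ≤ p ∧ p < r then
              (((p : ℝ) * ρ ^ (p - 1)) ^ (r - p)) else 0) A.card := by
          rw [hPP, Finset.sum_filter, Finset.powerset_univ]
        rw [h1, Finset.sum_powerset_apply_card (fun p : ℕ => if p1 ≤ p ∧ p < r then
              (((p : ℝ) * ρ ^ (p - 1)) ^ (r - p)) else 0), Finset.card_univ]
        have h2 : Fintype.card (Cyc g) = r := rfl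
        rw [h2, Finset.sum_filter, Finset.sum_range_succ]
        simp only [nsmul_eq_mul, lt_irrefl, and_false, if_false, mul_zero, add_zero]
        refine Finset.sum_congr rfl fun p hp => ?_
        rw [Finset.mem_range] at hp
        simp only [hp, and_true]
        split_ifs <;> simp

end Pool.Agent.Lib_helper99.Burnside
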