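import Pool.Agent.Lib_helper99.Burnside.Drift

set_option autoImplicit false
set_option linter.unusedSectionVars false

open Finset Equiv

namespace Pool.Agent.Lib_helper99.Burnside

open scoped Classical

lemma pow_time (s : ℝ) (hS : 1 ≤ s) : ∃ tn : ℕ, ∀ t ≥ tn, 2 * (1 - 1 / s) ^ t ≤ 1 / 2 := by
  have h0 : 0 ≤ 1 - 1 / s := by
    rw [sub_nonneg, div_le_one (by linarith)]; exact hS
  have h1 : 1 - 1 / s < 1 := by
    have : 0 < 1 / s := by positivity
    linarith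
  obtain ⟨tn, htn⟩ := exists_pow_lt_of_lt_one (show (0 : ℝ) < 1 / 4 by norm_num) h1
  refine ⟨tn, fun t ht => ?_⟩
  have := pow_le_pow_of_le_one h0 h1.le ht
  linarith

lemma small_time (F : ℕ → ℝ) (hF : ∀ n, 1 ≤ F n) (n1 : ℕ) : ∃ C2 : ℕ, ∀ n < n1, ∀ t ≥ C2,
    2 * (1 - 1 / F n) ^ t ≤ 1 / 2 := by
  induction n1 with
  | zero => exact ⟨0, fun n hn => absurd hn (Nat.not_lt_zero n)⟩
  | succ m ih =>
    obtain ⟨C, hC⟩ := ih
    obtain ⟨tm, htm⟩ := pow_time (F m) (hF m)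
    refine ⟨C + tm, fun n hn t ht => ?_⟩
    rcases Nat.lt_succ_iff_lt_or_eq.1 hn with h | h
    · exact hC n h t (le_trans (Nat.le_add_right _ _) ht)
    · rw [h]; exact htm t (le_trans (Nat.le_add_left _ _) ht)

/-- the chain on graphs with vertex set `V`, with law `μ t` at time `t` -/
structure IsChain (V : Type) [Fintype V] (μ : ℕ → SimpleGraph V → ℝ) : Prop where
  nonneg : ∀ x, 0 ≤ μ 0 x
  mass : ∑ x, μ 0 x = 1
  step : ∀ t y, μ (t + 1) y =
      ∑ x, μ t x * ker (Inv : Perm V → SimpleGraph V → Prop) x y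

/-- total variation distance to stationarity -/
noncomputable def dTV (V : Type) [Fintype V] (μ : ℕ → SimpleGraph V → ℝ) (t : ℕ) : ℝ :=
  (1 / 2) * ∑ x, |μ t x - sz (Inv : Perm V → SimpleGraph V → Prop) x /
        ∑ y, sz (Inv : Perm V → SimpleGraph V → Prop) y|

lemma small_n (n1 : ℕ) : ∃ C2 : ℕ, ∀ (V : Type) [Fintype V], Fintype.card V < n1 →
    ∀ μ : ℕ → SimpleGraph V → ℝ, IsChain V μ → ∀ t ≥ C2, dTV V μ t ≤ 1 / 4 := by
  obtain ⟨C2, hC2⟩ := small_time (fun n => ((Nat.factorial n : ℕ) : ℝ)) (fun n => by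
    exact_mod_cast Nat.factorial_pos n) n1
  refine ⟨C2, fun V _ hn μ hμ t ht => ?_⟩
  have h3 := doeblin (R := (Inv : Perm V → SimpleGraph V → Prop)) 1 Inv_one μ
    hμ.nonneg hμ.mass hμ.step t
  rw [Fintype.card_perm] at h3
  have h4 := hC2 (Fintype.card V) hn t ht
  unfold dTV
  refine le_trans (mul_le_mul_of_nonneg_left (h3.trans h4) (by norm_num)) (by norm_num)

lemma term1 {A0 P n t C1 : ℝ} (hA0 : 0 ≤ A0) (hP : P ≤ (n + 1) * A0) (hn : 0 ≤ n)
    (hC1 : 32 / 3 * A0 ≤ C1) (ht : C1 * (n + 1) ≤ t) (ht0 : 0 < t) : 4 / 3 * P / t ≤ 1 / 8 := by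
  rw [div_le_iff₀ ht0]
  have h7 : 32 / 3 * A0 * (n + 1) ≤ t := by
    refine le_trans ?_ ht
    gcongr
  nlinarith

lemma term2 {A0 P n b b' F : ℝ} (hA0 : 0 < A0) (hP : P ≤ (n + 1) * A0) (hP0 : 0 ≤ P)
    (hn : 0 ≤ n) (hF : 0 < F) (hb0 : 0 ≤ b) (hb' : b' ≤ b) (hb : (n + 1) * b ≤ 3 / (32 * A0) * F) :
    4 / 3 * P * b' / F ≤ 1 / 8 := by
  rw [div_le_iff₀ hF]
  calc 4 / 3 * P * b' ≤ 4 / 3 * P * b := by gcongr
    _ ≤ 4 / 3 * ((n + 1) * A0) * b := by gcongr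
    _ = 4 / 3 * A0 * ((n + 1) * b) := by ring
    _ ≤ 4 / 3 * A0 * (3 / (32 * A0) * F) := by gcongr
    _ = 1 / 8 * F := by field_simp; ring

lemma bad_le {V : Type} [Fintype V] : (univ.filter fun x : SimpleGraph V =>
    sz (Inv : Perm V → SimpleGraph V → Prop) x ≠ 1).card ≤
    ((FixS (1 : Perm V)).filter (fun β => numO β < Fintype.card V)).card := by
  refine Finset.card_le_card fun β hβ => ?_
  rw [Finset.mem_filter] at hβ
  rw [Finset.mem_filter, mem_FixS]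
  refine ⟨Inv_one β, ?_⟩
  by_contra h
  exact hβ.2 (sz_one_of_numO (not_lt.1 h))

lemma large_n : ∃ C1 n1 : ℕ, ∀ (V : Type) [Fintype V], n1 ≤ Fintype.card V →
    ∀ μ : ℕ → SimpleGraph V → ℝ, IsChain V μ →
    ∀ t : ℕ, 0 < t → C1 * (Fintype.card V + 1) ≤ t → dTV V μ t ≤ 1 / 4 := by
  obtain ⟨a, r0, n0, ha, hdrift⟩ := drift
  obtain ⟨A0, hA0⟩ : ∃ A0, A0 = a ^ (r0 + 1) := ⟨_, rfl⟩
  have hA01 : 1 ≤ A0 := by rw [hA0]; exact one_le_pow₀ ha
  obtain ⟨r2, hr2⟩ := caseA (3 / (32 * A0)) (by positivity)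
  obtain ⟨C1, hC1⟩ := exists_nat_ge (32 / 3 * A0)
  refine ⟨C1, max n0 r2, fun V _ hge μ hμ t ht0 ht => ?_⟩
  have hn0 : n0 ≤ Fintype.card V := (le_max_left _ _).trans hge
  have hr : r2 ≤ numC (1 : Perm V) := by
    rw [numC_one]; exact (le_max_right _ _).trans hge
  have h8 := hr2 V 1 hr
  rw [numC_one] at h8
  have hPsi := Psi_le (r0 := r0) ha (Fintype.card V)
  rw [← hA0] at hPsi
  have hPsi0 := Psi_nonneg (r0 := r0) ha (Fintype.card V)
  have hw0 : ∀ g : Perm V, 0 ≤ wF V a r0 g := by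
    intro g
    unfold wF
    have := Psi_mono (r0 := r0) ha (fixF_le g)
    linarith
  have hwB : ∀ g : Perm V, wF V a r0 g ≤ 4 / 3 * Psi a r0 (Fintype.card V) := by
    intro g
    unfold wF
    have := Psi_nonneg (r0 := r0) ha (fixF g).card
    linarith
  have hwe : wF V a r0 1 = 0 := by
    unfold wF
    rw [fixF_one]
    ring
  have htv := tv_bound (R := (Inv : Perm V → SimpleGraph V → Prop)) 1 Inv_one
    (wF V a r0) hwe hw0 hwB (fun g hg => hdrift V hn0 g hg) μ hμ.nonneg hμ.mass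
    hμ.step t ht0
  unfold dTV
  refine htv.trans ?_
  have e1 : 4 / 3 * Psi a r0 (Fintype.card V) / (t : ℝ) ≤ 1 / 8 := by
    refine term1 (by linarith) hPsi (Nat.cast_nonneg _) hC1 ?_ (by exact_mod_cast ht0)
    exact_mod_cast ht
  have hF : 0 < fx (Inv : Perm V → SimpleGraph V → Prop) 1 :=
    fx_pos (x := (⊥ : SimpleGraph V)) (Inv_one _)
  have hb : ((univ.filter fun x : SimpleGraph V =>
      sz (Inv : Perm V → SimpleGraph V → Prop) x ≠ 1).card : ℝ) ≤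
      (((FixS (1 : Perm V)).filter (fun β => numO β < Fintype.card V)).card : ℝ) :=
    Nat.cast_le.2 bad_le
  have e2 := term2 (A0 := A0) (by linarith) hPsi hPsi0 (Nat.cast_nonneg _) hF
    (Nat.cast_nonneg _) hb h8
  linarith

/-- linear mixing time of the orbit sampling process on graphs -/
theorem mixing : ∃ C : ℕ, ∀ (V : Type) [Fintype V] (μ : ℕ → SimpleGraph V → ℝ), IsChain V μ →
    ∀ t : ℕ, C * (Fintype.card V + 1) ≤ t → dTV V μ t ≤ 1 / 4 := by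
  obtain ⟨C1, n1, h1⟩ := large_n
  obtain ⟨C2, h2⟩ := small_n n1
  refine ⟨C1 + C2 + 1, fun V _ μ hμ t ht => ?_⟩
  have e1 : (C1 + C2 + 1) * (Fintype.card V + 1) = C1 * (Fintype.card V + 1) +
    C2 * Fintype.card V + Fintype.card V + C2 + 1 := by ring
  rw [e1] at ht
  generalize C2 * Fintype.card V = y at ht
  rcases lt_or_ge (Fintype.card V) n1 with h | h
  · exact h2 V h μ hμ t (by omega)
  · exact h1 V h μ hμ t (by omega) (by omega)

end Pool.Agent.Lib_helper99.Burnside
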