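import Pool.Agent.Lib_helper99.Burnside.Mixing

set_option autoImplicit false
set_option linter.unusedSectionVars false

open Finset Equiv

namespace Pool.Agent.Lib_helper99.Burnside

open scoped Classical

variable {X : Type*} [Fintype X]

/-- iterates of a kernel -/
noncomputable def kit (K : X → X → ℝ) : ℕ → X → X → ℝ
  | 0 => fun x y => if x = y then 1 else 0
  | t + 1 => fun x y => ∑ z, kit K t x z * K z y

lemma kit_apply (K : X → X → ℝ) (μ : ℕ → X → ℝ) (hrec : ∀ t y, μ (t + 1) y = ∑ x, μ t x * K x y)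
    (s t : ℕ) (y : X) : μ (s + t) y = ∑ x, μ s x * kit K t x y := by
  induction t generalizing y with
  | zero => simp [kit]
  | succ t ih =>
    rw [← add_assoc, hrec]
    simp only [kit, Finset.mul_sum]
    rw [Finset.sum_comm]
    refine Finset.sum_congr rfl fun z _ => ?_
    rw [ih, Finset.sum_mul]
    refine Finset.sum_congr rfl fun x _ => by ring

/-- contraction after `T` steps -/
lemma contract (K : X → X → ℝ) (hK1 : ∀ x, ∑ y, K x y = 1) (π : X → ℝ) (hπ1 : ∑ x, π x = 1)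
    (hπ : ∀ y, ∑ x, π x * K x y = π y) (T : ℕ)
    (hT : ∀ x, ∑ y, |kit K T x y - π y| ≤ 1 / 2) (μ : ℕ → X → ℝ)
    (hrec : ∀ t y, μ (t + 1) y = ∑ x, μ t x * K x y) (hμ1 : ∑ x, μ 0 x = 1) (s : ℕ) :
    ∑ y, |μ (s + T) y - π y| ≤ 1 / 2 * ∑ x, |μ s x - π x| := by
  have hmass : ∀ t, ∑ x, μ t x = 1 := by
    intro t
    induction t with
    | zero => exact hμ1
    | succ t ih =>
      simp only [hrec]
      rw [Finset.sum_comm]
      simp only [← Finset.mul_sum, hK1, mul_one]
      exact ih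
  have hstat : ∀ y, ∑ x, π x * kit K T x y = π y := by
    intro y
    have := kit_apply K (fun _ => π) (fun _ y => (hπ y).symm) 0 T y
    exact this.symm
  have hform : ∀ y, μ (s + T) y - π y = ∑ x, (μ s x - π x) * (kit K T x y - π y) := by
    intro y
    have h1 : ∑ x, (μ s x - π x) * (kit K T x y - π y) =
        (∑ x, μ s x * kit K T x y - ∑ x, π x * kit K T x y) - (∑ x, μ s x - ∑ x, π x) * π y := by
      rw [← Finset.sum_sub_distrib, ← Finset.sum_sub_distrib, Finset.sum_mul,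
        ← Finset.sum_sub_distrib]
      exact Finset.sum_congr rfl fun x _ => by ring
    rw [h1, ← kit_apply K μ hrec, hstat, hmass, hπ1]
    ring
  calc ∑ y, |μ (s + T) y - π y| = ∑ y, |∑ x, (μ s x - π x) * (kit K T x y - π y)| :=
        Finset.sum_congr rfl fun y _ => by rw [hform]
    _ ≤ ∑ y, ∑ x, |μ s x - π x| * |kit K T x y - π y| := by
        refine Finset.sum_le_sum fun y _ => (Finset.abs_sum_le_sum_abs _ _).trans ?_
        exact Finset.sum_le_sum fun x _ => (abs_mul _ _).le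
    _ = ∑ x, |μ s x - π x| * ∑ y, |kit K T x y - π y| := by
        rw [Finset.sum_comm]
        exact Finset.sum_congr rfl fun x _ => by rw [Finset.mul_sum]
    _ ≤ ∑ x, |μ s x - π x| * (1 / 2) :=
        Finset.sum_le_sum fun x _ => mul_le_mul_of_nonneg_left (hT x) (abs_nonneg _)
    _ = _ := by rw [← Finset.sum_mul]; ring

lemma contract_iter (K : X → X → ℝ) (hK1 : ∀ x, ∑ y, K x y = 1) (π : X → ℝ) (hπ1 : ∑ x, π x = 1)
    (hπ : ∀ y, ∑ x, π x * K x y = π y) (T : ℕ)
    (hT : ∀ x, ∑ y, |kit K T x y - π y| ≤ 1 / 2) (μ : ℕ → X → ℝ)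
    (hrec : ∀ t y, μ (t + 1) y = ∑ x, μ t x * K x y) (hμ1 : ∑ x, μ 0 x = 1) (s m : ℕ) :
    ∑ y, |μ (s + m * T) y - π y| ≤ (1 / 2) ^ m * ∑ x, |μ s x - π x| := by
  induction m with
  | zero => simp
  | succ m ih =>
    have h := contract K hK1 π hπ1 hπ T hT μ hrec hμ1 (s + m * T)
    have e : s + (m + 1) * T = s + m * T + T := by ring
    rw [e]
    calc _ ≤ _ := h
      _ ≤ 1 / 2 * ((1 / 2) ^ m * ∑ x, |μ s x - π x|) := by gcongr
      _ = _ := by ring

/-- geometric decay for the orbit sampling process -/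
theorem decay : ∃ C : ℕ, 0 < C ∧ ∀ (V : Type) [Fintype V] (μ : ℕ → SimpleGraph V → ℝ), IsChain V μ →
    ∀ t : ℕ, dTV V μ t ≤ (1 / 2) ^ (t / (C * (Fintype.card V + 1))) := by
  obtain ⟨C, hC⟩ := mixing
  refine ⟨C + 1, Nat.succ_pos C, fun V _ μ hμ t => ?_⟩
  obtain ⟨T, hT⟩ : ∃ T, T = (C + 1) * (Fintype.card V + 1) := ⟨_, rfl⟩
  rw [← hT]
  have hTC : C * (Fintype.card V + 1) ≤ T := by
    rw [hT]; exact Nat.mul_le_mul_right _ (Nat.le_succ C)
  obtain ⟨K, hKdef⟩ : ∃ K, K = ker (Inv : Perm V → SimpleGraph V → Prop) := ⟨_, rfl⟩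
  have hK1 : ∀ x, ∑ y, K x y = 1 := by rw [hKdef]; exact sum_ker_one 1 Inv_one
  have hZ : 0 < ∑ y : SimpleGraph V, sz (Inv : Perm V → SimpleGraph V → Prop) y :=
    Finset.sum_pos (fun y _ => by
      linarith [sz_pos (R := (Inv : Perm V → SimpleGraph V → Prop)) Inv_one y])
      ⟨⊥, Finset.mem_univ _⟩
  obtain ⟨π, hπdef⟩ : ∃ π : SimpleGraph V → ℝ, π = fun x =>
      sz (Inv : Perm V → SimpleGraph V → Prop) x /
        ∑ y, sz (Inv : Perm V → SimpleGraph V → Prop) y := ⟨_, rfl⟩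
  have hπ1 : ∑ x, π x = 1 := by
    rw [hπdef, ← Finset.sum_div, div_self hZ.ne']
  have hπ0 : ∀ x, 0 ≤ π x := by
    intro x
    rw [hπdef]
    refine div_nonneg ?_ hZ.le
    linarith [sz_pos (R := (Inv : Perm V → SimpleGraph V → Prop)) Inv_one x]
  have hπ : ∀ y, ∑ x, π x * K x y = π y := by
    intro y
    have := sum_sz_ker (R := (Inv : Perm V → SimpleGraph V → Prop)) 1 Inv_one y
    rw [hπdef, hKdef]
    simp only
    calc ∑ x, sz (Inv : Perm V → SimpleGraph V → Prop) x /
          (∑ y, sz (Inv : Perm V → SimpleGraph V → Prop) y) *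
            ker (Inv : Perm V → SimpleGraph V → Prop) x y =
        (∑ x, sz (Inv : Perm V → SimpleGraph V → Prop) x *
            ker (Inv : Perm V → SimpleGraph V → Prop) x y) /
          ∑ y, sz (Inv : Perm V → SimpleGraph V → Prop) y := by
          rw [Finset.sum_div]
          exact Finset.sum_congr rfl fun x _ => by ring
      _ = _ := by rw [this]
  have hstart : ∀ x, ∑ y, |kit K T x y - π y| ≤ 1 / 2 := by
    intro x
    have hch : IsChain V (fun t => kit K t x) := by
      refine ⟨fun y => ?_, ?_, fun t y => ?_⟩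
      · simp only [kit]; split_ifs <;> norm_num
      · simp [kit]
      · rw [hKdef]; rfl
    have h := hC V _ hch T hTC
    unfold dTV at h
    rw [hπdef]
    linarith
  have hrec : ∀ t y, μ (t + 1) y = ∑ x, μ t x * K x y := by
    rw [hKdef]; exact hμ.step
  have hmain := contract_iter K hK1 π hπ1 hπ T hstart μ hrec hμ.mass (t % T) (t / T)
  have e : t % T + t / T * T = t := by rw [mul_comm]; exact Nat.mod_add_div t T
  rw [e] at hmain
  -- crude bound at the start
  have hKnn : ∀ x y, 0 ≤ K x y := by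
    intro x y
    rw [hKdef, ker_eq (R := (Inv : Perm V → SimpleGraph V → Prop)) 1 Inv_one]
    have h1 := kerT_nonneg (R := (Inv : Perm V → SimpleGraph V → Prop)) 1 Inv_one x y
    have h2 := sz_pos (R := (Inv : Perm V → SimpleGraph V → Prop)) Inv_one x
    have h3 := fx_nonneg (R := (Inv : Perm V → SimpleGraph V → Prop)) 1
    positivity
  have hnn : ∀ s x, 0 ≤ μ s x := by
    intro s
    induction s with
    | zero => exact hμ.nonneg
    | succ s ih =>
      intro y
      rw [hrec]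
      exact Finset.sum_nonneg fun x _ => mul_nonneg (ih x) (hKnn x y)
  have hmass := mu_mass (R := (Inv : Perm V → SimpleGraph V → Prop)) 1 Inv_one μ hμ.mass hμ.step
  have h2 : ∑ x, |μ (t % T) x - π x| ≤ 2 := by
    calc ∑ x, |μ (t % T) x - π x| ≤ ∑ x, (μ (t % T) x + π x) := by
          refine Finset.sum_le_sum fun x _ => ?_
          have := hnn (t % T) x
          have := hπ0 x
          rw [abs_le]; constructor <;> linarith
      _ = 2 := by rw [Finset.sum_add_distrib, hmass, hπ1]; norm_num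
  have hfin : dTV V μ t = 1 / 2 * ∑ x, |μ t x - π x| := by
    unfold dTV
    rw [hπdef]
  rw [hfin]
  have h3 : (0 : ℝ) ≤ (1 / 2) ^ (t / T) := by positivity
  nlinarith

/-- rapid mixing for every accuracy -/
theorem rapid : ∃ C : ℝ, 0 < C ∧ ∀ (V : Type) [Fintype V] (μ : ℕ → SimpleGraph V → ℝ),
    IsChain V μ → ∀ ε : ℝ, 0 < ε → ε < 1 → ∀ t : ℕ,
      C * ((Fintype.card V : ℝ) + 1) * (1 + Real.log (1 / ε)) ≤ t → dTV V μ t ≤ ε := by
  obtain ⟨C, hC0, hC⟩ := decay
  refine ⟨2 * C, by positivity, fun V _ μ hμ ε hε hε1 t ht => ?_⟩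
  obtain ⟨T, hT⟩ : ∃ T, T = C * (Fintype.card V + 1) := ⟨_, rfl⟩
  have h := hC V μ hμ t
  rw [← hT] at h
  refine h.trans ?_
  have hT0 : 0 < T := by rw [hT]; exact Nat.mul_pos hC0 (Nat.succ_pos _)
  have hT0' : (0 : ℝ) < T := by exact_mod_cast hT0
  have hTr : (T : ℝ) = C * ((Fintype.card V : ℝ) + 1) := by rw [hT]; push_cast; ring
  have hlog : 0 < Real.log (1 / ε) := Real.log_pos (by rw [lt_div_iff₀ hε]; linarith)
  have h1 : (t : ℝ) < T * ((t / T : ℕ) + 1) := by
    have := Nat.lt_mul_div_succ t hT0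
    exact_mod_cast this
  have h2 : 2 * (1 + Real.log (1 / ε)) < (t / T : ℕ) + 1 := by
    have h3 : (T : ℝ) * (2 * (1 + Real.log (1 / ε))) < T * ((t / T : ℕ) + 1) := by
      calc (T : ℝ) * (2 * (1 + Real.log (1 / ε))) =
          2 * C * ((Fintype.card V : ℝ) + 1) * (1 + Real.log (1 / ε)) := by rw [hTr]; ring
        _ ≤ t := ht
        _ < _ := h1
    exact lt_of_mul_lt_mul_left h3 hT0'.le
  have hlog2 : (1 / 2 : ℝ) < Real.log 2 := by
    have := Real.log_two_gt_d9
    linarith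
  have h4 : Real.log (1 / ε) ≤ (t / T : ℕ) * Real.log 2 := by
    have h5 : 2 * Real.log (1 / ε) ≤ (t / T : ℕ) := by linarith
    have h6 : (0 : ℝ) ≤ (t / T : ℕ) := Nat.cast_nonneg _
    nlinarith
  have h7 : Real.log ((1 / 2) ^ (t / T)) ≤ Real.log ε := by
    rw [Real.log_pow]
    have e1 : Real.log (1 / 2) = -Real.log 2 := by rw [one_div, Real.log_inv]
    have e2 : Real.log (1 / ε) = -Real.log ε := by rw [one_div, Real.log_inv]
    rw [e1]
    rw [e2] at h4
    linarith
  exact (Real.log_le_log_iff (by positivity) hε).1 h7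

end Pool.Agent.Lib_helper99.Burnside
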